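import Mathlib
import Pool.Agent.H.MP_96e181_an.Digits
import Pool.Agent.H.MP_96e181_an.helper43.Rows

set_option autoImplicit false

namespace Pool.Agent.H.MP_96e181_an.rs

open MeasureTheory Filter Topology Set
open scoped ENNReal

open Pool.Agent.H.MP_96e181_an (rep dig dig_spec dig_lt measurable_dig coe_rep)
open Pool.Agent.H.MP_96e181_an.helper43 (badSet norm_lt_of_dig_eq nsmul_coe)

theorem exists_real (z : UnitAddCircle) : ∃ δ : ℝ, (δ : UnitAddCircle) = z ∧ |δ| = ‖z‖ := by
  refine ⟨rep z - round (rep z), ?_, ?_⟩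
  · rw [AddCircle.coe_sub, coe_rep]
    have : ((round (rep z) : ℝ) : UnitAddCircle) = 0 := by
      rw [AddCircle.coe_eq_zero_iff]
      exact ⟨round (rep z), by simp⟩
    rw [this, sub_zero]
  · conv_rhs => rw [← coe_rep z]
    rw [UnitAddCircle.norm_eq]

theorem norm_of_le_half {r : ℝ} (h : |r| ≤ 1 / 2) : ‖(r : UnitAddCircle)‖ = |r| := by
  rw [AddCircle.norm_coe_eq_abs_iff (1 : ℝ) one_ne_zero]
  simpa using h

/-- Two points outside the bad set whose multiples have separated differences force many cells. -/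
theorem pair {D R : ℕ} {ν : ℕ → ℕ} (hD : 0 < D) (S : Finset ℕ) {u v : UnitAddCircle} {δ : ℝ}
    (hδ : (δ : UnitAddCircle) = u - v)
    (hsep : ∀ k k' : ℕ, k < R → k' < R → k ≠ k' →
      2 / (D : ℝ) ≤ |(ν k : ℝ) * δ - (ν k' : ℝ) * δ| ∧ |(ν k : ℝ) * δ - (ν k' : ℝ) * δ| ≤ 1 / 2)
    (hu : u ∉ badSet D ν R S) (hv : v ∉ badSet D ν R S) : R < 2 * (S.card * S.card) := by
  simp only [badSet, mem_ofPred_eq, not_le] at hu hv
  set A := (Finset.range R).filter (fun j => dig D (ν j • u) ∉ S) with hA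
  set B := (Finset.range R).filter (fun j => dig D (ν j • v) ∉ S) with hB
  set J := (Finset.range R).filter (fun j => dig D (ν j • u) ∈ S ∧ dig D (ν j • v) ∈ S) with hJ
  have h4 : Finset.range R ⊆ J ∪ (A ∪ B) := by
    intro j hj
    simp only [hJ, hA, hB, Finset.mem_union, Finset.mem_filter]
    tauto
  have h5 := Finset.card_le_card h4
  rw [Finset.card_range] at h5
  have h6 := Finset.card_union_le J (A ∪ B)
  have h7 := Finset.card_union_le A B
  have h3 : J.card ≤ S.card * S.card := by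
    rw [← Finset.card_product]
    refine Finset.card_le_card_of_injOn (fun j => (dig D (ν j • u), dig D (ν j • v))) ?_ ?_
    · intro j hj
      have hj' := Finset.mem_filter.1 (Finset.mem_coe.1 hj)
      exact Finset.mem_coe.2 (Finset.mem_product.2 ⟨hj'.2.1, hj'.2.2⟩)
    · intro i hi j hj hij
      by_contra hne
      simp only [Prod.mk.injEq] at hij
      have hi' := Finset.mem_range.1 (Finset.mem_filter.1 (Finset.mem_coe.1 hi)).1
      have hj' := Finset.mem_range.1 (Finset.mem_filter.1 (Finset.mem_coe.1 hj)).1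
      obtain ⟨g1, g2⟩ := hsep i j hi' hj' hne
      have n1 := norm_lt_of_dig_eq hD hij.1
      have n2 := norm_lt_of_dig_eq hD hij.2
      have e : (((ν i : ℝ) * δ - (ν j : ℝ) * δ : ℝ) : UnitAddCircle) =
          (ν i • u - ν j • u) - (ν i • v - ν j • v) := by
        rw [AddCircle.coe_sub, ← nsmul_coe, ← nsmul_coe, hδ, smul_sub, smul_sub]
        abel
      have n3 := norm_of_le_half g2
      rw [e] at n3
      have n4 := norm_sub_le (ν i • u - ν j • u) (ν i • v - ν j • v)
      have n5 : 2 / (D : ℝ) = 1 / D + 1 / D := by ring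
      linarith
  omega

/-- A set without pairs of distinct close points is negligible for an atomless measure. -/
theorem null_of_separated {μ : Measure UnitAddCircle} [NullSingletonClass μ] {D : ℕ} (hD : 0 < D)
    {G : Set UnitAddCircle} (hG : ∀ x ∈ G, ∀ y ∈ G, ‖x - y‖ < 1 / (D : ℝ) → x = y) : μ G = 0 := by
  have h1 : G ⊆ ⋃ a ∈ Finset.range D, (G ∩ {x | dig D x = a}) := by
    intro x hx
    simp only [mem_iUnion, Finset.mem_range]
    exact ⟨dig D x, dig_lt hD x, hx, rfl⟩
  refine measure_mono_null h1 ?_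
  refine (measure_biUnion_null_iff (Finset.countable_toSet _)).2 ?_
  intro a _
  have h2 : (G ∩ {x | dig D x = a}).Subsingleton := by
    intro x hx y hy
    refine hG x hx.1 y hy.1 (norm_lt_of_dig_eq hD ?_)
    have e1 : dig D x = a := hx.2
    have e2 : dig D y = a := hy.2
    rw [e1, e2]
  exact h2.measure_zero μ

/-- **Borel–Cantelli for pairs.** -/
theorem no_pairs {p : ℕ} (hp : 2 ≤ p) {μ : Measure UnitAddCircle} [IsProbabilityMeasure μ]
    [NullSingletonClass μ] (B : ℕ → Set UnitAddCircle) (K0 : ℕ) (hB : ∀ K, MeasurableSet (B K))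
    (h1 : ∀ K, K0 ≤ K → ∀ x y : UnitAddCircle, x ∉ B K → y ∉ B K →
      1 / (p : ℝ) ^ (K + 1) ≤ ‖x - y‖ → ‖x - y‖ ≤ 1 / (p : ℝ) ^ K → False)
    (h2 : ∀ n, ∑ K ∈ Finset.Ico K0 n, μ (B K) ≤ 1 / 2) : False := by
  have hp1 : (1 : ℝ) < p := by exact_mod_cast (by omega : 1 < p)
  have hp0 : (0 : ℝ) < p := by linarith
  set U : Set UnitAddCircle := ⋃ K ∈ {K : ℕ | K0 ≤ K}, B K with hU
  have hUm : MeasurableSet U := MeasurableSet.biUnion (Set.to_countable _) (fun K _ => hB K)
  have hUle : μ U ≤ 1 / 2 := by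
    have h3 : U = ⋃ n : ℕ, ⋃ K ∈ Finset.Ico K0 n, B K := by
      ext x
      simp only [hU, mem_iUnion, Finset.mem_Ico]
      constructor
      · rintro ⟨K, hK, hx⟩
        exact ⟨K + 1, K, ⟨hK, by omega⟩, hx⟩
      · rintro ⟨n, K, hK, hx⟩
        exact ⟨K, hK.1, hx⟩
    have hmono : Monotone (fun n : ℕ => ⋃ K ∈ Finset.Ico K0 n, B K) := by
      intro m n hmn
      apply Set.biUnion_subset_biUnion_left
      intro K hK
      have hK' := Finset.mem_Ico.1 (Finset.mem_coe.1 hK)
      exact Finset.mem_coe.2 (Finset.mem_Ico.2 ⟨hK'.1, hK'.2.trans_le hmn⟩)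
    rw [h3, hmono.measure_iUnion]
    refine iSup_le fun n => ?_
    exact (measure_biUnion_finset_le _ _).trans (h2 n)
  have hG : μ Uᶜ = 0 := by
    refine null_of_separated (D := p ^ K0) (by positivity) ?_
    intro x hx y hy hxy
    by_contra hne
    have hpos : 0 < ‖x - y‖ := norm_pos_iff.2 (sub_ne_zero.2 hne)
    push_cast at hxy
    obtain ⟨n, hn1, hn2⟩ := exists_nat_pow_near (x := 1 / ‖x - y‖) (y := (p : ℝ))
      (by
        rw [le_div_iff₀ hpos, one_mul]
        refine hxy.le.trans ?_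
        rw [div_le_one (by positivity)]
        exact one_le_pow₀ hp1.le) hp1
    have hn : K0 ≤ n := by
      by_contra hlt
      push Not at hlt
      have h4 : (p : ℝ) ^ (n + 1) ≤ (p : ℝ) ^ K0 := pow_le_pow_right₀ hp1.le hlt
      have h5 : 1 / ‖x - y‖ < (p : ℝ) ^ K0 := hn2.trans_le h4
      rw [div_lt_iff₀ hpos] at h5
      rw [lt_div_iff₀ (by positivity)] at hxy
      linarith
    have hx' : x ∉ B n := fun h => hx (by rw [hU]; exact mem_biUnion (show n ∈ {K : ℕ | K0 ≤ K} from hn) h)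
    have hy' : y ∉ B n := fun h => hy (by rw [hU]; exact mem_biUnion (show n ∈ {K : ℕ | K0 ≤ K} from hn) h)
    refine h1 n hn x y hx' hy' ?_ ?_
    · rw [div_le_iff₀ (by positivity)]
      rw [div_lt_iff₀ hpos] at hn2
      linarith
    · rw [le_div_iff₀ (by positivity)]
      rw [le_div_iff₀ hpos] at hn1
      linarith
  have h6 : μ U + μ Uᶜ = 1 := by
    rw [measure_add_measure_compl hUm, measure_univ]
  rw [hG, add_zero] at h6
  rw [h6] at hUle
  have : (1 / 2 : ℝ≥0∞) < 1 := by
    rw [one_div]; exact ENNReal.inv_lt_one.2 (by norm_num)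
  exact absurd hUle (not_le.2 this)

end Pool.Agent.H.MP_96e181_an.rs
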