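import Mathlib

set_option autoImplicit false

namespace Pool.Agent.H.MP_96e181_an.rs

/-- Elementary bounds for the exponential function near `0`. -/
theorem exp_sub_bounds {a b : ℝ} (ha : |a| ≤ 1 / 8) (hb : |b| ≤ 1 / 8) :
    |a - b| / 2 ≤ |Real.exp a - Real.exp b| ∧ |Real.exp a - Real.exp b| ≤ 2 * |a - b| := by
  wlog h : b ≤ a generalizing a b with H
  · have := H hb ha (le_of_not_ge h)
    rw [abs_sub_comm b a, abs_sub_comm (Real.exp b) (Real.exp a)] at this
    exact this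
  rw [abs_le] at ha hb
  have h1 : 0 ≤ a - b := sub_nonneg.2 h
  have h2 : 0 ≤ Real.exp a - Real.exp b := sub_nonneg.2 (Real.exp_le_exp.2 h)
  rw [abs_of_nonneg h1, abs_of_nonneg h2]
  have e1 : Real.exp a = Real.exp b * Real.exp (a - b) := by
    rw [← Real.exp_add]; congr 1; ring
  have e2 : Real.exp b = Real.exp a * Real.exp (b - a) := by
    rw [← Real.exp_add]; congr 1; ring
  have hb1 : 7 / 8 ≤ Real.exp b := by linarith [Real.add_one_le_exp b]
  have ha1 : 7 / 8 ≤ Real.exp (-a) := by linarith [Real.add_one_le_exp (-a)]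
  have ha2 : Real.exp a ≤ 2 := by
    have h3 : Real.exp a * Real.exp (-a) = 1 := by rw [← Real.exp_add]; simp
    have h4 : 0 < Real.exp a := Real.exp_pos a
    nlinarith
  constructor
  · have h3 := Real.add_one_le_exp (a - b)
    rw [e1]
    nlinarith [Real.exp_pos b]
  · have h3 := Real.add_one_le_exp (b - a)
    have h4 : Real.exp a * ((b - a) + 1) ≤ Real.exp b := by
      rw [e2]; gcongr
    nlinarith [Real.exp_pos a]

/-- **The strip lemma.** For multiplicatively independent `p, q` and every scale `N` there are `R`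
elements `t k` of the semigroup generated by `p` and `q`, `R ≤ c √N`, such that for every real `δ` of
size `p ^ (-N)` the numbers `t k * δ` are `c / R`-separated inside an interval of length `1 / 2`. -/
theorem strip {p q : ℕ} (hp : 2 ≤ p) (hq : 2 ≤ q)
    (hirr : Irrational (Real.log q / Real.log p)) :
    ∃ c0 : ℝ, 0 < c0 ∧ ∀ N R : ℕ, 1 ≤ R → (R : ℝ) ≤ c0 * Nat.sqrt N →
      ∃ i j : ℕ → ℕ, ∀ δ : ℝ, 1 / (p : ℝ) ^ (N + 1) ≤ |δ| → |δ| ≤ 1 / (p : ℝ) ^ N →
        ∀ k k' : ℕ, k < R → k' < R → k ≠ k' →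
          1 / (16 * (p : ℝ) ^ 2 * R) ≤
            |((p : ℝ) ^ i k * (q : ℝ) ^ j k) * δ - ((p : ℝ) ^ i k' * (q : ℝ) ^ j k') * δ| ∧
          |((p : ℝ) ^ i k * (q : ℝ) ^ j k) * δ - ((p : ℝ) ^ i k' * (q : ℝ) ^ j k') * δ| ≤ 1 / 2 := by
  have hp1 : (1 : ℝ) < p := by exact_mod_cast (by omega : 1 < p)
  have hq1 : (1 : ℝ) < q := by exact_mod_cast (by omega : 1 < q)
  have hp0 : (0 : ℝ) < p := by linarith
  have hq0 : (0 : ℝ) < q := by linarith
  have hP : 0 < Real.log p := Real.log_pos hp1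
  have hL : 0 < Real.log q := Real.log_pos hq1
  set α : ℝ := Real.log q / Real.log p with hα
  have hα0 : 0 < α := div_pos hL hP
  have hαP : α * Real.log p = Real.log q := div_mul_cancel₀ _ hP.ne'
  set D : ℝ := 8 * Real.log p + α + 1 with hD
  have hD0 : 0 < D := by positivity
  refine ⟨1 / D, by positivity, ?_⟩
  intro N R hR hRN
  have hR0 : (0 : ℝ) < R := by exact_mod_cast hR
  have hQ : 0 < Nat.sqrt N := by
    rcases Nat.eq_zero_or_pos (Nat.sqrt N) with h | h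
    · rw [h] at hRN; simp at hRN; linarith
    · exact h
  set Q : ℕ := Nat.sqrt N with hQd
  have hQ0 : (0 : ℝ) < Q := by exact_mod_cast hQ
  have hQ1 : (1 : ℝ) ≤ Q := by exact_mod_cast hQ
  obtain ⟨K, hK0, hKQ, hK⟩ := Real.exists_nat_abs_mul_sub_round_le α hQ
  have hK0' : (0 : ℝ) < K := by exact_mod_cast hK0
  have hKQ' : (K : ℝ) ≤ Q := by exact_mod_cast hKQ
  set A : ℤ := round ((K : ℝ) * α) with hA
  have hA0 : 0 ≤ A := by
    have h1 : (0 : ℝ) < K * α := by positivity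
    rw [hA, round_eq]
    exact Int.floor_nonneg.2 (by linarith)
  obtain ⟨a, ha⟩ : ∃ a : ℕ, (A : ℝ) = a := by
    obtain ⟨n, hn⟩ := Int.eq_ofNat_of_zero_le hA0
    exact ⟨n, by rw [hn]; simp⟩
  set β : ℝ := K * α - a with hβ
  have hβ1 : |β| ≤ 1 / ((Q : ℝ) + 1) := by rw [hβ, ← ha]; exact hK
  have hβ2 : |β| ≤ 1 / (Q : ℝ) := hβ1.trans (one_div_le_one_div_of_le hQ0 (by linarith))
  have hβ3 : |β| ≤ 1 := hβ2.trans (by rw [div_le_one hQ0]; exact hQ1)
  have hβ0 : β ≠ 0 := by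
    intro h0
    have h1 : α = ((a : ℚ) / (K : ℚ) : ℚ) := by
      push_cast
      rw [eq_div_iff hK0'.ne']
      have : K * α = a := by linarith
      linarith
    exact hirr ⟨_, h1.symm⟩
  have hβp : 0 < |β| := abs_pos.2 hβ0
  have hDQ : (R : ℝ) * D ≤ Q := by
    rw [one_div, inv_mul_eq_div, le_div_iff₀ hD0] at hRN
    exact hRN
  -- `R |β| ≤ 1 / (8 log p)`
  have hRβ : (R : ℝ) * |β| * (8 * Real.log p) ≤ 1 := by
    have h1 : (R : ℝ) * (8 * Real.log p) ≤ Q := by
      refine le_trans ?_ hDQ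
      gcongr
      rw [hD]; linarith
    calc (R : ℝ) * |β| * (8 * Real.log p) = |β| * (R * (8 * Real.log p)) := by ring
      _ ≤ (1 / (Q : ℝ)) * Q := by gcongr
      _ = 1 := by field_simp
  -- the exponents stay nonnegative
  have haR : R * a ≤ N := by
    have h1 : (a : ℝ) ≤ Q * (α + 1) := by
      have h2 : (a : ℝ) ≤ K * α + 1 := by
        have := (abs_le.1 hβ3).1
        rw [hβ] at this
        linarith
      nlinarith
    have h2 : (R : ℝ) * (α + 1) ≤ Q := by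
      refine le_trans ?_ hDQ
      gcongr
      rw [hD]; linarith
    have h3 : (R : ℝ) * a ≤ Q * Q := by
      calc (R : ℝ) * a ≤ R * (Q * (α + 1)) := by gcongr
        _ = (R * (α + 1)) * Q := by ring
        _ ≤ Q * Q := by gcongr
    have h4 : R * a ≤ Q * Q := by exact_mod_cast h3
    exact h4.trans (Nat.sqrt_le N)
  obtain ⟨m, hm1, hm2⟩ := exists_nat_pow_near (x := 1 / ((R : ℝ) * |β| * (8 * Real.log p)))
    (y := (p : ℝ)) (by rw [le_div_iff₀ (by positivity)]; linarith) hp1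
  rw [le_div_iff₀ (by positivity)] at hm1
  rw [div_lt_iff₀ (by positivity)] at hm2
  refine ⟨fun k => N + m - k * a, fun k => k * K, ?_⟩
  intro δ hδ1 hδ2 k k' hk hk' hkk
  -- formula for the multipliers
  have key : ∀ k : ℕ, k < R → (p : ℝ) ^ (N + m - k * a) * (q : ℝ) ^ (k * K) =
      (p : ℝ) ^ N * (p : ℝ) ^ m * Real.exp (k * (β * Real.log p)) := by
    intro k hk
    have h1 : k * a ≤ N + m := by
      have : k * a ≤ R * a := Nat.mul_le_mul_right _ hk.le
      omega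
    have h2 : (p : ℝ) ^ (N + m - k * a) * (p : ℝ) ^ (k * a) = (p : ℝ) ^ N * (p : ℝ) ^ m := by
      rw [← pow_add, ← pow_add]; congr 1; omega
    have h3 : (q : ℝ) ^ (k * K) = (p : ℝ) ^ (k * a) * Real.exp (k * (β * Real.log p)) := by
      have e1 : (q : ℝ) ^ (k * K) = Real.exp ((k * K : ℕ) * Real.log q) := by
        rw [Real.exp_nat_mul, Real.exp_log hq0]
      have e2 : (p : ℝ) ^ (k * a) = Real.exp ((k * a : ℕ) * Real.log p) := by
        rw [Real.exp_nat_mul, Real.exp_log hp0]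
      rw [e1, e2, ← Real.exp_add]
      congr 1
      rw [← hαP, hβ]
      push_cast
      ring
    rw [h3, ← mul_assoc, h2]
  have hk1 := key k hk
  have hk2 := key k' hk'
  simp only
  rw [hk1, hk2]
  set u : ℝ := β * Real.log p with hu
  have hsmall : ∀ k : ℕ, k < R → |(k : ℝ) * u| ≤ 1 / 8 := by
    intro k hk
    have hk' : (k : ℝ) ≤ R := by exact_mod_cast hk.le
    rw [abs_mul, hu, abs_mul, Nat.abs_cast, abs_of_pos hP]
    have : (k : ℝ) * (|β| * Real.log p) ≤ R * (|β| * Real.log p) := by gcongr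
    linarith
  obtain ⟨hb1, hb2⟩ := exp_sub_bounds (hsmall k hk) (hsmall k' hk')
  have hsplit : (p : ℝ) ^ N * (p : ℝ) ^ m * Real.exp (k * u) * δ -
      (p : ℝ) ^ N * (p : ℝ) ^ m * Real.exp (k' * u) * δ =
      ((p : ℝ) ^ N * δ) * ((p : ℝ) ^ m * (Real.exp (k * u) - Real.exp (k' * u))) := by ring
  rw [hsplit, abs_mul, abs_mul, abs_mul, abs_of_pos (show (0 : ℝ) < (p : ℝ) ^ N by positivity),
    abs_of_pos (show (0 : ℝ) < (p : ℝ) ^ m by positivity)]
  have hδa : 1 / (p : ℝ) ≤ (p : ℝ) ^ N * |δ| := by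
    have h1 : (p : ℝ) ^ N * (1 / (p : ℝ) ^ (N + 1)) = 1 / (p : ℝ) := by
      rw [pow_succ]; field_simp
    rw [← h1]; gcongr
  have hδb : (p : ℝ) ^ N * |δ| ≤ 1 := by
    have h1 : (p : ℝ) ^ N * (1 / (p : ℝ) ^ N) = 1 := by field_simp
    rw [← h1]; gcongr
  have hdiff : (k : ℝ) * u - k' * u = ((k : ℝ) - k') * u := by ring
  have hu' : |u| = |β| * Real.log p := by rw [hu, abs_mul, abs_of_pos hP]
  have hkk1 : (1 : ℝ) ≤ |(k : ℝ) - k'| := by
    have h1 : (1 : ℤ) ≤ |(k : ℤ) - k'| := Int.one_le_abs (by omega)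
    have h2 : ((1 : ℤ) : ℝ) ≤ ((|(k : ℤ) - k'| : ℤ) : ℝ) := by exact_mod_cast h1
    simpa using h2
  have hkk2 : |(k : ℝ) - k'| ≤ R := by
    have h1 : (k : ℝ) ≤ R := by exact_mod_cast hk.le
    have h2 : (k' : ℝ) ≤ R := by exact_mod_cast hk'.le
    have h3 : (0 : ℝ) ≤ k := Nat.cast_nonneg _
    have h4 : (0 : ℝ) ≤ k' := Nat.cast_nonneg _
    rw [abs_le]; constructor <;> linarith
  rw [hdiff, abs_mul, hu'] at hb1 hb2
  have hmp : (0 : ℝ) < (p : ℝ) ^ m := by positivity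
  constructor
  · -- lower bound
    have h1 : |β| * Real.log p / 2 ≤ |Real.exp (k * u) - Real.exp (k' * u)| := by
      refine le_trans ?_ hb1
      have h0 : 0 ≤ |β| * Real.log p := by positivity
      have h1 := mul_le_mul_of_nonneg_right hkk1 h0
      linarith
    have h2 : 1 / (16 * (p : ℝ) * R) ≤ (p : ℝ) ^ m * (|β| * Real.log p / 2) := by
      rw [div_le_iff₀ (by positivity)]
      refine hm2.le.trans (le_of_eq ?_)
      rw [pow_succ]
      ring
    calc 1 / (16 * (p : ℝ) ^ 2 * R) = (1 / (p : ℝ)) * (1 / (16 * (p : ℝ) * R)) := by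
          field_simp
      _ ≤ ((p : ℝ) ^ N * |δ|) * ((p : ℝ) ^ m * |Real.exp (k * u) - Real.exp (k' * u)|) := by
          gcongr
          exact h2.trans (by gcongr)
  · -- upper bound
    have h1 : |Real.exp (k * u) - Real.exp (k' * u)| ≤ 2 * (R * (|β| * Real.log p)) := by
      refine hb2.trans ?_
      gcongr
    calc ((p : ℝ) ^ N * |δ|) * ((p : ℝ) ^ m * |Real.exp (k * u) - Real.exp (k' * u)|)
        ≤ 1 * ((p : ℝ) ^ m * (2 * (R * (|β| * Real.log p)))) := by gcongr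
      _ = (1 / 4) * ((p : ℝ) ^ m * (R * |β| * (8 * Real.log p))) := by ring
      _ ≤ 1 / 2 := by linarith
end Pool.Agent.H.MP_96e181_an.rs
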