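import Mathlib
import Pool.Agent.H.MP_96e181_an.helper43.Rows
import Pool.Agent.H.MP_96e181_an.helper43.Cover
import Pool.Agent.H.MP_96e181_an.rs.Strip
import Pool.Agent.H.MP_96e181_an.rs.Pair

set_option autoImplicit false

namespace Pool.Agent.H.MP_96e181_an.rs

open MeasureTheory Filter Topology Set
open scoped ENNReal

open Pool.Agent.H.MP_96e181_an (rep dig dig_spec dig_lt measurable_dig coe_rep)
open Pool.Agent.H.MP_96e181_an.helper43 (badSet measure_badSet_le measurableSet_badSet mp_pow tail_sum)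

/-- The lower end of the window of levels used at scale `N`. -/
noncomputable def lev (p D : ℕ) (l : ℝ) (N : ℕ) : ℕ := ⌊(Nat.log p (Nat.sqrt N / D) : ℝ) / l⌋₊

theorem tendsto_lev {p D : ℕ} (hp : 2 ≤ p) (hD : 0 < D) {l : ℝ} (hl : 1 ≤ l) :
    Tendsto (fun N => lev p D l N) atTop atTop := by
  have h1 : Tendsto (fun N : ℕ => Nat.log p (Nat.sqrt N / D)) atTop atTop := by
    refine tendsto_atTop_atTop.2 fun n => ⟨(D * p ^ n) * (D * p ^ n), fun N hN => ?_⟩
    have h1 : D * p ^ n ≤ Nat.sqrt N := Nat.le_sqrt.2 hN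
    have h2 : p ^ n ≤ Nat.sqrt N / D := by
      rw [Nat.le_div_iff_mul_le hD, mul_comm]
      exact h1
    exact Nat.le_log_of_pow_le (by omega) h2
  have h2 : Tendsto (fun N : ℕ => (Nat.log p (Nat.sqrt N / D) : ℝ) / l) atTop atTop :=
    (tendsto_natCast_atTop_atTop.comp h1).atTop_div_const (by linarith)
  exact tendsto_nat_floor_atTop.comp h2

/-- Few cells cannot satisfy the counting bound. -/
theorem small_count {p m s : ℕ} (hp : 2 ≤ p) {a : ℝ} (hm : 8 ≤ (1 - 2 * a) * m) (hm7 : 7 ≤ m)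
    (hs : (s : ℝ) ≤ (p : ℝ) ^ (a * m)) : 2 * (s * s) ≤ p ^ (m - 7) := by
  have hp1 : (1 : ℝ) < p := by exact_mod_cast (by omega : 1 < p)
  have hp2 : (2 : ℝ) ≤ p := by exact_mod_cast hp
  have hp0 : (0 : ℝ) < p := by linarith
  have h1 : (s : ℝ) * s ≤ (p : ℝ) ^ (2 * a * m) := by
    calc (s : ℝ) * s ≤ (p : ℝ) ^ (a * m) * (p : ℝ) ^ (a * m) := by gcongr
      _ = (p : ℝ) ^ (2 * a * m) := by rw [← Real.rpow_add hp0]; congr 1; ring
  have h2 : ((2 * (s * s) : ℕ) : ℝ) ≤ ((p ^ (m - 7) : ℕ) : ℝ) := by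
    push_cast
    calc 2 * ((s : ℝ) * s) ≤ (p : ℝ) * (p : ℝ) ^ (2 * a * m) := by gcongr
      _ = (p : ℝ) ^ (1 + 2 * a * m) := by rw [Real.rpow_add hp0, Real.rpow_one]
      _ ≤ (p : ℝ) ^ ((m - 7 : ℕ) : ℝ) := by
          apply Real.rpow_le_rpow_of_exponent_le hp1.le
          rw [Nat.cast_sub hm7]
          push_cast
          linarith
      _ = (p : ℝ) ^ (m - 7) := Real.rpow_natCast _ _
  exact_mod_cast h2

/-- Preservation of the measure by the multipliers. -/
theorem mp_mul {μ : Measure UnitAddCircle} {p q : ℕ}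
    (hp : MeasurePreserving (fun x : UnitAddCircle => p • x) μ μ)
    (hq : MeasurePreserving (fun x : UnitAddCircle => q • x) μ μ) (i j : ℕ) :
    MeasurePreserving (fun x : UnitAddCircle => (p ^ i * q ^ j) • x) μ μ := by
  have := (mp_pow hp i).comp (mp_pow hq j)
  convert! this using 1
  funext x
  simp only [Function.comp_apply]
  rw [mul_smul]

/-- **The covering theorem for all multiplicatively independent pairs.** -/
theorem covering {p q : ℕ} (hp : 2 ≤ p) (hq : 2 ≤ q)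
    (hirr : Irrational (Real.log q / Real.log p))
    {μ : Measure UnitAddCircle} [IsProbabilityMeasure μ] [NullSingletonClass μ]
    (hμp : MeasurePreserving (fun x : UnitAddCircle => p • x) μ μ)
    (hμq : MeasurePreserving (fun x : UnitAddCircle => q • x) μ μ)
    {a b l : ℝ} (ha : a < 1 / 2) (hl : 1 ≤ l) (hb : 2 * l < b)
    (H : ∀ᶠ n : ℕ in atTop, ∃ m : ℕ, n ≤ m ∧ (m : ℝ) ≤ l * n ∧ ∃ S : Finset ℕ,
      (S.card : ℝ) ≤ (p : ℝ) ^ (a * m) ∧
      μ {x : UnitAddCircle | dig (p ^ m) x ∉ S} ≤ ENNReal.ofReal ((p : ℝ) ^ (-(b * m)))) : False := by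
  have hp1 : (1 : ℝ) < p := by exact_mod_cast (by omega : 1 < p)
  have hp0 : (0 : ℝ) < p := by linarith
  have hl0 : 0 < l := by linarith
  have hb0 : 0 < b := by linarith
  obtain ⟨c0, hc0, hstrip⟩ := strip hp hq hirr
  choose! i j hij using hstrip
  obtain ⟨D, hD⟩ := exists_nat_ge (max 1 (1 / c0))
  have hD1 : (1 : ℝ) ≤ D := (le_max_left _ _).trans hD
  have hD2 : 1 / c0 ≤ D := (le_max_right _ _).trans hD
  have hD0 : 0 < D := by
    have : (0 : ℝ) < D := by linarith
    exact_mod_cast this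
  have hD0' : (0 : ℝ) < D := by exact_mod_cast hD0
  obtain ⟨n0, hn0⟩ := eventually_atTop.1 H
  choose! m hm using hn0
  have hm1 : ∀ n, n0 ≤ n → n ≤ m n := fun n hn => (hm n hn).1
  have hm2 : ∀ n, n0 ≤ n → (m n : ℝ) ≤ l * n := fun n hn => (hm n hn).2.1
  have hm3 := fun n (hn : n0 ≤ n) => (hm n hn).2.2
  choose! S hS using hm3
  obtain ⟨m0, hm0⟩ := exists_nat_ge (8 / (1 - 2 * a))
  have h12a : 0 < 1 - 2 * a := by linarith
  have hlev := tendsto_lev hp hD0 hl
  set f : ℕ → ℝ := fun N => 4 * ((p : ℝ) ^ b * ((D * p : ℝ) ^ (b / l) * (4 : ℝ) ^ (b / (2 * l)))) *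
    ((N : ℝ) ^ (b / (2 * l)))⁻¹ with hf
  have hbl : 1 < b / (2 * l) := by rw [one_lt_div (by positivity)]; exact hb
  have hfs : Summable f := (Real.summable_nat_rpow_inv.2 hbl).mul_left _
  have hf0 : ∀ n, 0 ≤ f n := fun n => by positivity
  obtain ⟨K1, hK1⟩ := eventually_atTop.1
    ((hlev.eventually (eventually_ge_atTop (n0 + m0 + 8))).and (eventually_ge_atTop (D * D)))
  obtain ⟨K0, hK0t, hK01⟩ := ((tail_sum hfs hf0).and (eventually_ge_atTop K1)).exists
  -- basic facts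
  have hbas : ∀ K, K0 ≤ K → n0 + m0 + 8 ≤ lev p D l K ∧ D * D ≤ K := fun K hK =>
    hK1 K (hK01.trans hK)
  have hlog : ∀ K, K0 ≤ K → m (lev p D l K) ≤ Nat.log p (Nat.sqrt K / D) := by
    intro K hK
    have h1 := hm2 (lev p D l K) (by have := (hbas K hK).1; omega)
    have h2 : ((lev p D l K : ℕ) : ℝ) ≤ (Nat.log p (Nat.sqrt K / D) : ℝ) / l :=
      Nat.floor_le (by positivity)
    have h3 : (m (lev p D l K) : ℝ) ≤ (Nat.log p (Nat.sqrt K / D) : ℝ) := by
      refine h1.trans ?_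
      rw [le_div_iff₀ hl0] at h2
      linarith
    exact_mod_cast h3
  have hge : ∀ K, K0 ≤ K → n0 + m0 + 8 ≤ m (lev p D l K) := by
    intro K hK
    have h1 := (hbas K hK).1
    have h2 := hm1 (lev p D l K) (by omega)
    omega
  have hsq : ∀ K, K0 ≤ K → D ≤ Nat.sqrt K := fun K hK => Nat.le_sqrt.2 (hbas K hK).2
  have hpow : ∀ K, K0 ≤ K → (p : ℝ) ^ (m (lev p D l K)) ≤ c0 * Nat.sqrt K := by
    intro K hK
    have h2 : Nat.sqrt K / D ≠ 0 := by
      have : 1 ≤ Nat.sqrt K / D := by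
        rw [Nat.le_div_iff_mul_le hD0, one_mul]
        exact hsq K hK
      omega
    have h3 : p ^ (m (lev p D l K)) ≤ Nat.sqrt K / D :=
      (Nat.pow_le_pow_right (by omega) (hlog K hK)).trans (Nat.pow_log_le_self p h2)
    have h4 : p ^ (m (lev p D l K)) * D ≤ Nat.sqrt K := (Nat.le_div_iff_mul_le hD0).1 h3
    have h5 : (p : ℝ) ^ (m (lev p D l K)) * D ≤ Nat.sqrt K := by exact_mod_cast h4
    have h6 : 1 ≤ c0 * D := by
      rw [div_le_iff₀ hc0] at hD2
      linarith
    have h7 : (0 : ℝ) ≤ (p : ℝ) ^ (m (lev p D l K)) := by positivity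
    calc (p : ℝ) ^ (m (lev p D l K)) = (p : ℝ) ^ (m (lev p D l K)) * 1 := (mul_one _).symm
      _ ≤ (p : ℝ) ^ (m (lev p D l K)) * (c0 * D) := by gcongr
      _ = c0 * ((p : ℝ) ^ (m (lev p D l K)) * D) := by ring
      _ ≤ c0 * Nat.sqrt K := by gcongr
  have hR : ∀ K, K0 ≤ K → ((p ^ (m (lev p D l K) - 7) : ℕ) : ℝ) ≤ c0 * Nat.sqrt K := by
    intro K hK
    refine le_trans ?_ (hpow K hK)
    push_cast
    exact pow_le_pow_right₀ hp1.le (Nat.sub_le _ _)
  refine no_pairs (μ := μ) hp (fun K => badSet (p ^ (m (lev p D l K)))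
      (fun k => p ^ (i K (p ^ (m (lev p D l K) - 7)) k) * q ^ (j K (p ^ (m (lev p D l K) - 7)) k))
      (p ^ (m (lev p D l K) - 7)) (S (lev p D l K))) K0
    (fun K => measurableSet_badSet _ _ _ _) ?_ ?_
  · intro K hK x y hx hy hxy1 hxy2
    have hg' := hge K hK
    obtain ⟨h3, -⟩ := hS (lev p D l K) (by have := (hbas K hK).1; omega)
    have hcnt := small_count hp (m := m (lev p D l K)) (s := (S (lev p D l K)).card) (a := a)
      (by
        have h1 : (m0 : ℝ) ≤ m (lev p D l K) := by exact_mod_cast (by omega)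
        rw [div_le_iff₀ h12a] at hm0
        nlinarith)
      (by omega) h3
    obtain ⟨δ, hδ, hδn⟩ := exists_real (x - y)
    have hs := hij K (p ^ (m (lev p D l K) - 7)) (Nat.one_le_pow _ _ (by omega)) (hR K hK) δ
      (by rw [hδn]; exact hxy1) (by rw [hδn]; exact hxy2)
    have hlt := pair (D := p ^ (m (lev p D l K))) (R := p ^ (m (lev p D l K) - 7))
      (ν := fun k => p ^ (i K (p ^ (m (lev p D l K) - 7)) k) * q ^ (j K (p ^ (m (lev p D l K) - 7)) k))
      (by positivity) (S (lev p D l K)) hδ (by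
        intro k k' hk hk' hkk
        obtain ⟨g1, g2⟩ := hs k k' hk hk' hkk
        push_cast
        refine ⟨le_trans ?_ g1, g2⟩
        rw [div_le_div_iff₀ (by positivity) (by positivity)]
        have e1 : (p : ℝ) ^ (m (lev p D l K)) = (p : ℝ) ^ (m (lev p D l K) - 7) * (p : ℝ) ^ 7 := by
          rw [← pow_add]; congr 1; omega
        rw [e1, one_mul]
        push_cast
        have e2 : (32 : ℝ) ≤ (p : ℝ) ^ 5 := by
          calc (32 : ℝ) = 2 ^ 5 := by norm_num
            _ ≤ (p : ℝ) ^ 5 := by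
              have : (2 : ℝ) ≤ p := by exact_mod_cast hp
              gcongr
        have e3 : (p : ℝ) ^ 7 = (p : ℝ) ^ 5 * (p : ℝ) ^ 2 := by rw [← pow_add]
        have e4 : (0 : ℝ) < (p : ℝ) ^ (m (lev p D l K) - 7) := by positivity
        calc 2 * (16 * (p : ℝ) ^ 2 * (p : ℝ) ^ (m (lev p D l K) - 7))
            = (p : ℝ) ^ (m (lev p D l K) - 7) * (32 * (p : ℝ) ^ 2) := by ring
          _ ≤ (p : ℝ) ^ (m (lev p D l K) - 7) * ((p : ℝ) ^ 5 * (p : ℝ) ^ 2) := by gcongr
          _ = (p : ℝ) ^ (m (lev p D l K) - 7) * (p : ℝ) ^ 7 := by rw [e3])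
      hx hy
    omega
  · intro n
    have h1 : ∀ K ∈ Finset.Ico K0 n,
        μ (badSet (p ^ (m (lev p D l K)))
          (fun k => p ^ (i K (p ^ (m (lev p D l K) - 7)) k) * q ^ (j K (p ^ (m (lev p D l K) - 7)) k))
          (p ^ (m (lev p D l K) - 7)) (S (lev p D l K))) ≤ ENNReal.ofReal (f K) := by
      intro K hK
      have hK' := (Finset.mem_Ico.1 hK).1
      have hg' := hge K hK'
      obtain ⟨-, h4⟩ := hS (lev p D l K) (by have := (hbas K hK').1; omega)
      refine (measure_badSet_le (fun k => mp_mul hμp hμq _ _) _ (by positivity) _).trans ?_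
      refine (mul_le_mul_right h4 4).trans ?_
      rw [show (4 : ℝ≥0∞) = ENNReal.ofReal 4 by simp, ← ENNReal.ofReal_mul (by norm_num)]
      apply ENNReal.ofReal_le_ofReal
      rw [hf]
      simp only
      rw [mul_assoc]
      refine mul_le_mul_of_nonneg_left ?_ (by norm_num)
      have hsq' := hsq K hK'
      have hQpos : 0 < Nat.sqrt K := by omega
      have hQ0 : (0 : ℝ) < Nat.sqrt K := by exact_mod_cast hQpos
      have hKpos : (0 : ℝ) < K := by
        have h1 : 0 < K := by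
          have h2 := (hbas K hK').2
          have h3 : 0 < D * D := by positivity
          omega
        exact_mod_cast h1
      have h8 : (Nat.sqrt K : ℝ) / (D * p) ≤ (p : ℝ) ^ (Nat.log p (Nat.sqrt K / D)) := by
        have g1 : Nat.sqrt K / D < p ^ (Nat.log p (Nat.sqrt K / D) + 1) :=
          Nat.lt_pow_succ_log_self (by omega) _
        have g2 : Nat.sqrt K < p ^ (Nat.log p (Nat.sqrt K / D) + 1) * D :=
          (Nat.div_lt_iff_lt_mul hD0).1 g1
        have g3 : (Nat.sqrt K : ℝ) ≤ (p : ℝ) ^ (Nat.log p (Nat.sqrt K / D) + 1) * D := by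
          exact_mod_cast g2.le
        rw [div_le_iff₀ (by positivity)]
        rw [pow_succ] at g3
        linarith
      have h9 : (lev p D l K : ℝ) ≤ (m (lev p D l K) : ℝ) := by
        exact_mod_cast hm1 (lev p D l K) (by have := (hbas K hK').1; omega)
      have h10 : (Nat.log p (Nat.sqrt K / D) : ℝ) / l - 1 < (lev p D l K : ℝ) :=
        Nat.sub_one_lt_floor _
      have h11 : (K : ℝ) ≤ 4 * (Nat.sqrt K : ℝ) ^ 2 := by
        have g1 : K < (Nat.sqrt K + 1) * (Nat.sqrt K + 1) := Nat.lt_succ_sqrt K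
        have g2 : (K : ℝ) < ((Nat.sqrt K : ℝ) + 1) * ((Nat.sqrt K : ℝ) + 1) := by exact_mod_cast g1
        have g3 : (1 : ℝ) ≤ Nat.sqrt K := by exact_mod_cast hQpos
        nlinarith
      have h12 : ((K : ℝ) / 4) ^ (b / (2 * l)) ≤ (Nat.sqrt K : ℝ) ^ (b / l) := by
        have e1 : (Nat.sqrt K : ℝ) ^ (b / l) = ((Nat.sqrt K : ℝ) ^ 2) ^ (b / (2 * l)) := by
          rw [← Real.rpow_natCast, ← Real.rpow_mul hQ0.le]
          congr 1
          push_cast
          field_simp
        rw [e1]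
        apply Real.rpow_le_rpow (by positivity) (by linarith) (by positivity)
      calc (p : ℝ) ^ (-(b * (m (lev p D l K) : ℝ)))
          ≤ (p : ℝ) ^ (-(b * ((Nat.log p (Nat.sqrt K / D) : ℝ) / l - 1))) := by
            apply Real.rpow_le_rpow_of_exponent_le hp1.le
            have := mul_le_mul_of_nonneg_left (h10.le.trans h9) hb0.le
            linarith
        _ = (p : ℝ) ^ b * (((p : ℝ) ^ (Nat.log p (Nat.sqrt K / D))) ^ (b / l))⁻¹ := by
            rw [← Real.rpow_natCast, ← Real.rpow_mul hp0.le, ← Real.rpow_neg hp0.le,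
              ← Real.rpow_add hp0]
            congr 1
            ring
        _ ≤ (p : ℝ) ^ b * (((Nat.sqrt K : ℝ) / (D * p)) ^ (b / l))⁻¹ := by gcongr
        _ = (p : ℝ) ^ b * ((D * p : ℝ) ^ (b / l) * ((Nat.sqrt K : ℝ) ^ (b / l))⁻¹) := by
            rw [Real.div_rpow hQ0.le (by positivity), inv_div]
            rfl
        _ ≤ (p : ℝ) ^ b * ((D * p : ℝ) ^ (b / l) * (((K : ℝ) / 4) ^ (b / (2 * l)))⁻¹) := by gcongr
        _ = (p : ℝ) ^ b * ((D * p : ℝ) ^ (b / l) * (4 : ℝ) ^ (b / (2 * l))) *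
            ((K : ℝ) ^ (b / (2 * l)))⁻¹ := by
            rw [Real.div_rpow hKpos.le (by norm_num), inv_div]
            ring
    refine (Finset.sum_le_sum h1).trans ?_
    rw [← ENNReal.ofReal_sum_of_nonneg (fun K _ => hf0 K)]
    refine (ENNReal.ofReal_le_ofReal (hK0t n)).trans ?_
    rw [ENNReal.ofReal_div_of_pos (by norm_num)]
    simp

end Pool.Agent.H.MP_96e181_an.rs
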