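import Mathlib
import Pool.Agent.H.MP_96e181_an.gen.Defs
import Pool.Agent.H.MP_96e181_an.gen.Row
import Pool.Agent.H.MP_96e181_an.gen.Strip
import Pool.Agent.H.MP_96e181_an.rs.RowD

set_option autoImplicit false

open MeasureTheory

namespace Pool.Agent.H.MP_96e181_an.rs

open Pool.Agent.H.MP_96e181_an.Blk
open Pool.Agent.H.MP_96e181_an.Gen
open Pool.Agent.H.MP_96e181_an.Gen.StripAux
open Pool.Agent.H.MP_96e181_an.Gen.RowAux

/-- The parts of `p` and `q` prime to `R i`. -/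
theorem parts {p q : ℕ} (N : NF p q) (i : Fin N.J) :
    ∃ P₁ Q₁ : ℕ, p = N.R i ^ N.A i * P₁ ∧ q = N.R i ^ N.B i * Q₁ ∧ Nat.Coprime P₁ (N.R i) ∧
      Nat.Coprime Q₁ (N.R i) ∧ Q₁ ^ N.A i ≠ P₁ ^ N.B i := by
  refine ⟨∏ j ∈ Finset.univ.erase i, N.R j ^ N.A j,
    N.Q0 * ∏ j ∈ Finset.univ.erase i, N.R j ^ N.B j, ?_, ?_, ?_, ?_, ?_⟩
  · conv_lhs => rw [N.hp]
    exact (Finset.mul_prod_erase Finset.univ (fun j => N.R j ^ N.A j) (Finset.mem_univ i)).symm
  · conv_lhs => rw [N.hq]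
    rw [← Finset.mul_prod_erase Finset.univ (fun j => N.R j ^ N.B j) (Finset.mem_univ i)]
    ring
  · refine Nat.Coprime.prod_left fun j hj => ?_
    exact Nat.Coprime.pow_left _ (N.hcop j i (Finset.mem_erase.mp hj).1)
  · refine Nat.Coprime.mul_left ?_ ?_
    · exact N.hQ0.coprime_dvd_right (R_dvd N i)
    · refine Nat.Coprime.prod_left fun j hj => ?_
      exact Nat.Coprime.pow_left _ (N.hcop j i (Finset.mem_erase.mp hj).1)
  · intro h
    apply N.hne i
    set P₁ := ∏ j ∈ Finset.univ.erase i, N.R j ^ N.A j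
    set Q₁ := N.Q0 * ∏ j ∈ Finset.univ.erase i, N.R j ^ N.B j with hQ₁
    have hp1 : p = N.R i ^ N.A i * P₁ := by
      conv_lhs => rw [N.hp]
      exact (Finset.mul_prod_erase Finset.univ (fun j => N.R j ^ N.A j) (Finset.mem_univ i)).symm
    have hq1 : q = N.R i ^ N.B i * Q₁ := by
      conv_lhs => rw [N.hq]
      rw [hQ₁, ← Finset.mul_prod_erase Finset.univ (fun j => N.R j ^ N.B j) (Finset.mem_univ i)]
      ring
    calc p ^ N.B i = (N.R i ^ N.A i * P₁) ^ N.B i := congrArg (· ^ N.B i) hp1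
      _ = N.R i ^ (N.A i * N.B i) * P₁ ^ N.B i := by rw [mul_pow, ← pow_mul]
      _ = N.R i ^ (N.A i * N.B i) * Q₁ ^ N.A i := by rw [h]
      _ = (N.R i ^ N.B i * Q₁) ^ N.A i := by
          rw [mul_pow (N.R i ^ N.B i) Q₁ (N.A i), ← pow_mul, mul_comm (N.B i)]
      _ = q ^ N.A i := (congrArg (· ^ N.A i) hq1).symm

theorem order_step {R : ℕ} (hR : 0 < R) (g : UnitAddCircle) (hg : 0 < addOrderOf (R • g)) :
    addOrderOf g ≤ R * addOrderOf (R • g) := by
  apply Nat.le_of_dvd (Nat.mul_pos hR hg)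
  apply addOrderOf_dvd_iff_nsmul_eq_zero.2
  rw [mul_comm, mul_smul]
  exact addOrderOf_nsmul_eq_zero _

/-- On a suitable line beyond the strip the points of a row are spread at the scale `1 / X`. -/
theorem line_conc {p q : ℕ} (N : NF p q) :
    ∃ C : ℕ, 1 ≤ C ∧ ∀ (i : Fin N.J) (s l m c T X : ℕ) (o : Fin N.J → ℕ) (ξ : UnitAddCircle),
      N.A i ∣ l → Index N o ξ → Edge N o T i s l m c → 1 ≤ X → X ≤ 2 ^ s →
      ∃ u, m * s ≤ u ∧ u < o i ∧ ∀ (z : UnitAddCircle) (ρ : ℝ), 0 ≤ ρ →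
        (((strip N i 1 l u c).filter (fun v => dist (nn p q v • ξ) z ≤ ρ)).card : ℝ) ≤
          ((l / N.A i : ℕ) * C / X + 1) * (2 * ρ * (N.R i * X) + 1) := by
  classical
  choose P₁ Q₁ hpi hqi hPc hQc hVW using parts N
  have hRpos : ∀ i, 0 < N.R i := fun i => by have := N.hR i; omega
  have hrow := fun i : Fin N.J => row_count_D (N.hR i) ((hQc i).pow_left (N.A i))
    ((hPc i).pow_left (N.B i)) (hVW i)
  choose Cf hCf1 hCf using hrow
  refine ⟨1 + ∑ i, Cf i, by omega, ?_⟩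
  intro i s l m c T X o ξ hl hI hE hX1 hXs
  have hCi : Cf i ≤ 1 + ∑ i, Cf i := by
    have := Finset.single_le_sum (fun i (_ : i ∈ Finset.univ) => Nat.zero_le (Cf i))
      (Finset.mem_univ i)
    omega
  set C := 1 + ∑ i, Cf i with hC
  set M := l / N.A i with hM
  have hlo := hE.lo
  have hhi := hE.hi
  rcases Nat.eq_zero_or_pos M with hM0 | hM0
  · refine ⟨m * s, le_rfl, by omega, fun z ρ hρ => ?_⟩
    have h1 : (strip N i 1 l (m * s) c).card = 0 := by
      rw [card_strip N i hl (by rw [mul_one]; exact hE.full), ← hM, hM0]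
    rw [Finset.card_eq_zero] at h1
    rw [h1]
    simp only [Finset.filter_empty, Finset.card_empty, Nat.cast_zero]
    positivity
  -- the base point
  obtain ⟨a₀, b₀, h1, -⟩ := row_param (N.hA i) (N.hAB i) hl hE.full
  obtain ⟨hb0, -, hab0⟩ := h1 0 hM0
  simp only [mul_zero, Nat.sub_zero, Nat.add_zero] at hb0 hab0
  set g0 : UnitAddCircle := nn p q (a₀, b₀) • ξ with hg0
  have hind0 : ∀ e, (N.R i ^ e • g0 = 0 ↔ o i ≤ m * s + e) := by
    intro e
    have h6 := hI a₀ b₀ i (hE.other _ _ hb0 (by rw [hab0])) e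
    rw [hab0] at h6
    exact h6
  obtain ⟨K, hK⟩ : ∃ K, o i = m * s + K := ⟨o i - m * s, by omega⟩
  have hK1 : s + 1 ≤ K := by omega
  set Dk : ℕ → ℕ := fun k => addOrderOf (N.R i ^ k • g0) with hDk
  have hkill : ∀ k, k ≤ K → N.R i ^ (K - k) • (N.R i ^ k • g0) = 0 := by
    intro k hk
    rw [← mul_smul, ← pow_add, Nat.sub_add_cancel hk]
    exact (hind0 K).2 (by omega)
  have hDpos : ∀ k, k ≤ K → 0 < Dk k := by
    intro k hk
    have h2 : Dk k ∣ N.R i ^ (K - k) := addOrderOf_dvd_iff_nsmul_eq_zero.2 (hkill k hk)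
    exact Nat.pos_of_dvd_of_pos h2 (pow_pos (hRpos i) _)
  have hDstep : ∀ k, k + 1 ≤ K → Dk k ≤ N.R i * Dk (k + 1) := by
    intro k hk
    have e1 : N.R i ^ (k + 1) • g0 = N.R i • (N.R i ^ k • g0) := by
      rw [pow_succ', mul_smul]
    have h2 := order_step (hRpos i) (N.R i ^ k • g0) (by rw [← e1]; exact hDpos (k + 1) hk)
    rw [← e1] at h2
    exact h2
  have hD0 : X ≤ Dk 0 := by
    have h2 : Dk 0 = addOrderOf g0 := by simp only [hDk, pow_zero, one_smul]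
    have h3 : addOrderOf g0 ∣ N.R i ^ K :=
      addOrderOf_dvd_iff_nsmul_eq_zero.2 ((hind0 K).2 (by omega))
    have h4 : ¬ addOrderOf g0 ∣ N.R i ^ (K - 1) := by
      intro h
      have h5 := (hind0 (K - 1)).1 (addOrderOf_dvd_iff_nsmul_eq_zero.1 h)
      omega
    have h5 : 2 ^ K ≤ addOrderOf g0 := two_pow_le (N.hR i) (by omega) h3 h4
    rw [h2]
    exact hXs.trans ((Nat.pow_le_pow_right (by norm_num) (by omega)).trans h5)
  have hDK : Dk K = 1 := by
    simp only [hDk]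
    rw [(hind0 K).2 (by omega)]
    exact addOrderOf_zero
  have hex : ∃ k, Dk (k + 1) < X ∨ k + 1 = K := ⟨K - 1, Or.inr (by omega)⟩
  set k := Nat.find hex with hk
  have hkspec : Dk (k + 1) < X ∨ k + 1 = K := Nat.find_spec hex
  have hkmin : ∀ k' < k, ¬ (Dk (k' + 1) < X ∨ k' + 1 = K) := fun k' hk' => Nat.find_min hex hk'
  have hkK : k + 1 ≤ K := by
    have h2 : k ≤ K - 1 := Nat.find_min' hex (Or.inr (by omega))
    omega
  have hDlow : X ≤ Dk k := by
    rcases Nat.eq_zero_or_pos k with h | h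
    · rw [h]; exact hD0
    · have h2 := hkmin (k - 1) (by omega)
      rw [Nat.sub_add_cancel h] at h2
      push Not at h2
      exact h2.1
  have hDup : Dk k ≤ N.R i * X := by
    refine (hDstep k hkK).trans (Nat.mul_le_mul_left _ ?_)
    rcases hkspec with h | h
    · exact h.le
    · rw [h, hDK]; exact hX1
  refine ⟨m * s + k, by omega, by omega, fun z ρ hρ => ?_⟩
  obtain ⟨a₁, b₁, g1, g2⟩ := row_param (N' := m * s + k) (N.hA i) (N.hAB i) hl
    (hE.full.trans (Nat.le_add_right _ _))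
  set ζ : ℕ → UnitAddCircle :=
    fun j => nn p q (a₁ - N.B i * j, b₁ + N.A i * j) • ξ with hζ
  have hsub : (strip N i 1 l (m * s + k) c).filter (fun v => dist (nn p q v • ξ) z ≤ ρ) ⊆
      ((Finset.range M).filter (fun j => dist (ζ j) z ≤ ρ)).image
        (fun j => (a₁ - N.B i * j, b₁ + N.A i * j)) := by
    rintro ⟨a, b⟩ hv
    rw [Finset.mem_filter, mem_strip] at hv
    obtain ⟨⟨h3, h5, h6⟩, h4⟩ := hv
    obtain ⟨j, hj, rfl, rfl⟩ := g2 a b h3 (by simp only [mul_one] at h5 h6; omega)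
    exact Finset.mem_image.mpr ⟨j, Finset.mem_filter.mpr ⟨Finset.mem_range.mpr hj, h4⟩, rfl⟩
  have hle := (Finset.card_le_card hsub).trans Finset.card_image_le
  have hind : ∀ j < M, ∀ e, (N.R i ^ e • ζ j = 0 ↔ o i ≤ m * s + k + e) := by
    intro j hj e
    obtain ⟨h3, _, h5⟩ := g1 j hj
    have h6 := hI (a₁ - N.B i * j) (b₁ + N.A i * j) i
      (hE.other _ _ h3 (by rw [h5]; omega)) e
    rw [h5] at h6
    exact h6
  have hord : ∀ j < M, addOrderOf (ζ j) = Dk k := by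
    intro j hj
    obtain ⟨h3, _, h5⟩ := g1 j hj
    refine order_eq (R := N.R i) (y := K - k)
      (V := P₁ i ^ (a₁ - N.B i * j) * Q₁ i ^ (b₁ + N.A i * j)) (W := P₁ i ^ a₀ * Q₁ i ^ b₀)
      (Nat.Coprime.mul_left ((hPc i).pow_left _) ((hQc i).pow_left _))
      (Nat.Coprime.mul_left ((hPc i).pow_left _) ((hQc i).pow_left _))
      (hkill k (by omega)) ((hind j hj (K - k)).2 (by omega)) ?_
    set a := a₁ - N.B i * j with ha
    set b := b₁ + N.A i * j with hb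
    have hpa : ∀ e, p ^ e = N.R i ^ (N.A i * e) * P₁ i ^ e := by
      intro e
      calc p ^ e = (N.R i ^ N.A i * P₁ i) ^ e := congrArg (· ^ e) (hpi i)
        _ = _ := by rw [mul_pow, ← pow_mul]
    have hqb : ∀ e, q ^ e = N.R i ^ (N.B i * e) * Q₁ i ^ e := by
      intro e
      calc q ^ e = (N.R i ^ N.B i * Q₁ i) ^ e := congrArg (· ^ e) (hqi i)
        _ = _ := by rw [mul_pow, ← pow_mul]
    have hnat : P₁ i ^ a₀ * Q₁ i ^ b₀ * (p ^ a * q ^ b) =
        P₁ i ^ a * Q₁ i ^ b * (N.R i ^ k * (p ^ a₀ * q ^ b₀)) := by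
      have e1 : N.R i ^ (N.A i * a) * N.R i ^ (N.B i * b) =
          N.R i ^ k * (N.R i ^ (N.A i * a₀) * N.R i ^ (N.B i * b₀)) := by
        rw [← pow_add, ← pow_add, ← pow_add]
        congr 1
        omega
      calc P₁ i ^ a₀ * Q₁ i ^ b₀ * (p ^ a * q ^ b)
          = P₁ i ^ a₀ * Q₁ i ^ b₀ * (P₁ i ^ a * Q₁ i ^ b) *
              (N.R i ^ (N.A i * a) * N.R i ^ (N.B i * b)) := by
            rw [hpa a, hqb b]; ring
        _ = P₁ i ^ a * Q₁ i ^ b * (N.R i ^ k * (p ^ a₀ * q ^ b₀)) := by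
            rw [e1, hpa a₀, hqb b₀]; ring
    rw [hζ]
    simp only [hg0, nn]
    rw [smul_smul, smul_smul, smul_smul, ← ha, ← hb, hnat]
    congr 1
    ring
  have hrc := hCf i (K - k) ζ z ρ M (Dk k) hρ (hDpos k (by omega))
    (fun j hj => (hind j hj (K - k)).2 (by omega)) hord
    (fun j hj => by
      obtain ⟨_, h4, _⟩ := g1 (j + 1) hj
      have h4' : N.B i ≤ a₁ - N.B i * j := by
        rw [Nat.mul_add, Nat.mul_one] at h4; omega
      have h5 : a₁ - N.B i * (j + 1) + N.B i = a₁ - N.B i * j := by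
        rw [Nat.mul_add, Nat.mul_one] at h4 ⊢; omega
      have h6 : b₁ + N.A i * (j + 1) = b₁ + N.A i * j + N.A i := by ring
      have hpow : p ^ N.B i = N.R i ^ (N.A i * N.B i) * P₁ i ^ N.B i := by
        calc p ^ N.B i = (N.R i ^ N.A i * P₁ i) ^ N.B i := congrArg (· ^ N.B i) (hpi i)
          _ = _ := by rw [mul_pow, ← pow_mul]
      have hqow : q ^ N.A i = N.R i ^ (N.A i * N.B i) * Q₁ i ^ N.A i := by
        calc q ^ N.A i = (N.R i ^ N.B i * Q₁ i) ^ N.A i := congrArg (· ^ N.A i) (hqi i)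
          _ = _ := by rw [mul_pow, ← pow_mul, mul_comm (N.B i)]
      have hnat : P₁ i ^ N.B i * (p ^ (a₁ - N.B i * (j + 1)) * q ^ (b₁ + N.A i * (j + 1))) =
          Q₁ i ^ N.A i * (p ^ (a₁ - N.B i * j) * q ^ (b₁ + N.A i * j)) := by
        apply Nat.eq_of_mul_eq_mul_left (pow_pos (hRpos i) (N.A i * N.B i))
        calc N.R i ^ (N.A i * N.B i) * (P₁ i ^ N.B i * (p ^ (a₁ - N.B i * (j + 1)) *
              q ^ (b₁ + N.A i * (j + 1))))
            = (N.R i ^ (N.A i * N.B i) * P₁ i ^ N.B i) * (p ^ (a₁ - N.B i * (j + 1)) *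
              q ^ (b₁ + N.A i * (j + 1))) := by ring
          _ = p ^ (a₁ - N.B i * (j + 1) + N.B i) * q ^ (b₁ + N.A i * (j + 1)) := by
              rw [← hpow, pow_add]; ring
          _ = p ^ (a₁ - N.B i * j) * (q ^ (b₁ + N.A i * j) * q ^ N.A i) := by
              rw [h5, h6, pow_add q]
          _ = _ := by rw [hqow]; ring
      change P₁ i ^ N.B i • (nn p q (a₁ - N.B i * (j + 1), b₁ + N.A i * (j + 1)) • ξ) =
        Q₁ i ^ N.A i • (nn p q (a₁ - N.B i * j, b₁ + N.A i * j) • ξ)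
      rw [smul_smul, smul_smul]
      simp only [nn]
      rw [hnat])
  have h3 : (((strip N i 1 l (m * s + k) c).filter
      (fun v => dist (nn p q v • ξ) z ≤ ρ)).card : ℝ) ≤
      (((Finset.range M).filter (fun j => dist (ζ j) z ≤ ρ)).card : ℝ) := by
    exact_mod_cast hle
  refine h3.trans (hrc.trans ?_)
  have hX0 : (0 : ℝ) < X := by exact_mod_cast hX1
  have e1 : (X : ℝ) ≤ Dk k := by exact_mod_cast hDlow
  have e2 : (Dk k : ℝ) ≤ N.R i * X := by exact_mod_cast hDup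
  have e3 : (Cf i : ℝ) ≤ C := by exact_mod_cast hCi
  have e4 : (M : ℝ) * Cf i / Dk k ≤ M * C / X := by gcongr
  have e5 : 2 * ρ * (Dk k : ℝ) ≤ 2 * ρ * (N.R i * X) := by gcongr
  have e6 : (0 : ℝ) ≤ 2 * ρ * (Dk k : ℝ) + 1 := by positivity
  have e7 : (0 : ℝ) ≤ (M : ℝ) * C / X + 1 := by positivity
  calc ((M : ℝ) * Cf i / Dk k + 1) * (2 * ρ * Dk k + 1)
      ≤ ((M : ℝ) * C / X + 1) * (2 * ρ * Dk k + 1) := by gcongr
    _ ≤ ((M : ℝ) * C / X + 1) * (2 * ρ * (N.R i * X) + 1) := by gcongr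

end Pool.Agent.H.MP_96e181_an.rs
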