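import Mathlib
import Pool.Agent.H.MP_96e181_an.blk.Defs
import Pool.Agent.H.MP_96e181_an.blk.Block
import Pool.Agent.H.MP_96e181_an.gen.Defs
import Pool.Agent.H.MP_96e181_an.gen.Pair
import Pool.Agent.H.MP_96e181_an.gen.Index
import Pool.Agent.H.MP_96e181_an.gen.Geom
import Pool.Agent.H.MP_96e181_an.gen.Atoms
import Pool.Agent.H.MP_96e181_an.gen.Strip
import Pool.Agent.H.MP_96e181_an.gen.Master

set_option autoImplicit false

open MeasureTheory

namespace Pool.Agent.H.MP_96e181_an.rs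

open Pool.Agent.H.MP_96e181_an.Blk
open Pool.Agent.H.MP_96e181_an.Gen
open Pool.Agent.H.MP_96e181_an.Gen.StripAux

/-- The index set of the lines at scale `t`. -/
def Uset (a c l n k t : ℕ) : Finset ℕ :=
  Finset.range (a * (c * 2 ^ (t + 1)) + 1) ∪
    Finset.Icc (a * (n + k) - (a * (c * 2 ^ (t + 1)) + l)) (a * n)

theorem mem_Uset_left {a c l n k t u : ℕ} (h : u ≤ a * (c * 2 ^ (t + 1))) :
    u ∈ Uset a c l n k t := by
  unfold Uset
  rw [Finset.mem_union]
  left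
  rw [Finset.mem_range]
  omega

theorem mem_Uset_right {a c l n k t u : ℕ}
    (h1 : a * (n + k) ≤ u + l + a * (c * 2 ^ (t + 1))) (h2 : u ≤ a * n) :
    u ∈ Uset a c l n k t := by
  unfold Uset
  rw [Finset.mem_union]
  right
  rw [Finset.mem_Icc]
  omega

theorem card_Uset {a c l n k t : ℕ} :
    (Uset a c l n k t).card ≤ 2 * (a * (c * 2 ^ (t + 1))) + l + 2 := by
  unfold Uset
  refine (Finset.card_union_le _ _).trans ?_
  rw [Finset.card_range, Nat.card_Icc]
  have h1 : a * n ≤ a * (n + k) := Nat.mul_le_mul_left _ (Nat.le_add_right _ _)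
  omega

/-- The principle behind the covering theorem, with cells depending on the scale. -/
theorem master2 {p q : ℕ} (hp : 2 ≤ p) (hq : 2 ≤ q) (N : NF p q)
    {μ : Measure UnitAddCircle} [IsProbabilityMeasure μ] [NullSingletonClass μ]
    (hμp : MeasurePreserving (fun x : UnitAddCircle => p • x) μ μ)
    (Z : ℕ → Finset UnitAddCircle) (r : ℕ → ℝ)
    (s : ℕ → ℕ) (t₀ : ℕ) (hr : ∀ t, t₀ ≤ t → 0 < r t)
    (hr2 : ∀ t, t₀ ≤ t → 1 ≤ r t * (2 : ℝ) ^ (2 ^ t))
    (hs1 : ∀ t, t₀ ≤ t → 1 ≤ s t)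
    (hs2 : ∀ c : ℕ, ∃ t₁ : ℕ, ∀ t, t₁ ≤ t → c * s t ≤ 2 ^ t)
    (F : ℕ → Fin N.J → ℕ → ℕ → Finset (ℕ × ℕ))
    (hF : ∀ t i u c, F t i u c ⊆ strip N i 1 ((∏ j, N.A j) * 2 ^ t) u c)
    (β : ℕ → ℝ) (hβ : ∀ t, 0 ≤ β t)
    (hsum : Summable (fun t => (2 : ℝ) ^ t * β t))
    (hstat : ∀ t, t₀ ≤ t → ∀ i u c, N.B i * ((c + 1) * ((∏ j, N.A j) * 2 ^ t)) ≤ u →
      (F t i u c).Nonempty ∧ ∃ E : Set UnitAddCircle, MeasurableSet E ∧ μ.real E ≤ β t ∧
        ∀ x, x ∉ E → 8 * (outCount p q (Z t) (2 * r t) (F t i u c) x : ℝ) ≤ (F t i u c).card)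
    (hconc : ∀ t, t₀ ≤ t → ∀ i m c o T ξ, Index N o ξ →
      Edge N o T i (s t) ((∏ j, N.A j) * 2 ^ t) m c → ∃ u, m * s t ≤ u ∧ u < o i ∧
      ∀ z : UnitAddCircle, 2 * ((Z t).card : ℝ) ^ 2 *
        (((F t i u c).filter (fun v => dist (nn p q v • ξ) z ≤ 5 * r t)).card : ℝ) ≤
          (F t i u c).card) : False := by
  classical
  obtain ⟨nc, c₀, hnc, hc₀, hedge⟩ := exists_edge N
  set AA : ℕ := ∏ j, N.A j with hAA
  have hA1 : 1 ≤ AA := Nat.succ_le_of_lt (Finset.prod_pos (fun j _ => Nat.lt_of_lt_of_le Nat.zero_lt_one (N.hA j)))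
  have hAle : ∀ i, N.A i ≤ AA := fun i =>
    Nat.le_of_dvd hA1 (Finset.dvd_prod_of_mem N.A (Finset.mem_univ i))
  set c₁ : ℕ := q * (nc * AA) + c₀ * AA + 1 with hc₁
  set C₂ : ℝ := 4 * (AA * c₁) + c₀ * AA + 2 with hC₂
  have hC₂0 : 0 < C₂ := by positivity
  have hp0 : (0:ℝ) < p := by positivity
  have hp1 : (1:ℝ) ≤ p := by exact_mod_cast (by omega : 1 ≤ p)
  have hq0 : (0:ℝ) < q := by positivity
  have hq1 : (1:ℝ) ≤ q := by exact_mod_cast (by omega : 1 ≤ q)
  -- the bad sets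
  have hBex : ∀ t i m c, ∃ B : Set UnitAddCircle, MeasurableSet B ∧ μ.real B ≤ β t ∧
      (t₀ ≤ t → N.B i * ((c + 1) * (AA * 2 ^ t)) ≤ m → (F t i m c).Nonempty ∧
        ∀ x, x ∉ B → 8 * (outCount p q (Z t) (2 * r t) (F t i m c) x : ℝ) ≤
          (F t i m c).card) := by
    intro t i m c
    by_cases h : t₀ ≤ t ∧ N.B i * ((c + 1) * (AA * 2 ^ t)) ≤ m
    · obtain ⟨h1, B, h2, h3, h4⟩ := hstat t h.1 i m c h.2
      exact ⟨B, h2, h3, fun _ _ => ⟨h1, h4⟩⟩
    · exact ⟨∅, MeasurableSet.empty, by simpa using hβ t, fun h1 h2 => absurd ⟨h1, h2⟩ h⟩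
  choose B hBm hBβ hB using hBex
  -- thresholds
  obtain ⟨ta, hta⟩ := tail_le hsum
    (ε := 1 / (2 * (N.J * nc * C₂ + 1))) (by positivity)
  obtain ⟨tb, htb⟩ := hs2 c₀
  set t₁ : ℕ := t₀ + ta + tb with ht₁
  set k₀ : ℕ := c₁ * 2 ^ t₁ with hk₀
  have hc₁1 : 1 ≤ c₁ := by omega
  refine atoms_of_good hp hμp k₀ k₀ ?_
  intro n₀ hn₀
  set E : Set UnitAddCircle := ⋃ t ∈ Finset.Ico t₁ (n₀ + 1),
    ⋃ i ∈ (Finset.univ : Finset (Fin N.J)), ⋃ c ∈ Finset.range nc,
      ⋃ m ∈ Uset (N.A i) c₁ (c₀ * (AA * 2 ^ t)) n₀ k₀ t, B t i m c with hE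
  refine ⟨E, ?_, ?_, ?_⟩
  · refine Finset.measurableSet_biUnion _ fun t _ => ?_
    refine Finset.measurableSet_biUnion _ fun i _ => ?_
    refine Finset.measurableSet_biUnion _ fun c _ => ?_
    exact Finset.measurableSet_biUnion _ fun m _ => hBm t i m c
  · -- the measure of the bad set
    have h1 : μ.real E ≤ ∑ t ∈ Finset.Ico t₁ (n₀ + 1),
        (N.J * nc * C₂) * ((2:ℝ) ^ t * β t) := by
      refine (measureReal_biUnion_finset_le _ _).trans (Finset.sum_le_sum fun t ht => ?_)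
      rw [Finset.mem_Ico] at ht
      refine (measureReal_biUnion_finset_le _ _).trans ?_
      have h4 : ∀ i ∈ (Finset.univ : Finset (Fin N.J)),
          μ.real (⋃ c ∈ Finset.range nc,
            ⋃ m ∈ Uset (N.A i) c₁ (c₀ * (AA * 2 ^ t)) n₀ k₀ t, B t i m c) ≤
            nc * (C₂ * (2:ℝ) ^ t * β t) := by
        intro i _
        refine (measureReal_biUnion_finset_le _ _).trans ?_
        have h5 : ∀ c ∈ Finset.range nc,
            μ.real (⋃ m ∈ Uset (N.A i) c₁ (c₀ * (AA * 2 ^ t)) n₀ k₀ t, B t i m c) ≤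
              C₂ * (2:ℝ) ^ t * β t := by
          intro c _
          refine (measureReal_biUnion_finset_le _ _).trans ?_
          refine (Finset.sum_le_card_nsmul _ _ _ (fun m _ => hBβ t i m c)).trans ?_
          rw [nsmul_eq_mul]
          refine mul_le_mul_of_nonneg_right ?_ (hβ t)
          have h6 : (Uset (N.A i) c₁ (c₀ * (AA * 2 ^ t)) n₀ k₀ t).card ≤
              2 * (AA * (c₁ * 2 ^ (t + 1))) + c₀ * (AA * 2 ^ t) + 2 := by
            refine card_Uset.trans ?_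
            have h8 : N.A i * (c₁ * 2 ^ (t + 1)) ≤ AA * (c₁ * 2 ^ (t + 1)) :=
              Nat.mul_le_mul_right _ (hAle i)
            omega
          have h7 : ((Uset (N.A i) c₁ (c₀ * (AA * 2 ^ t)) n₀ k₀ t).card : ℝ) ≤
              2 * (AA * (c₁ * 2 ^ (t + 1))) + c₀ * (AA * 2 ^ t) + 2 := by exact_mod_cast h6
          have h9 : (1:ℝ) ≤ 2 ^ t := one_le_pow₀ (by norm_num)
          refine h7.trans ?_
          rw [hC₂, pow_succ]
          nlinarith
        refine (Finset.sum_le_card_nsmul _ _ _ h5).trans ?_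
        rw [Finset.card_range, nsmul_eq_mul]
      refine (Finset.sum_le_card_nsmul _ _ _ h4).trans (le_of_eq ?_)
      rw [Finset.card_univ, Fintype.card_fin, nsmul_eq_mul]
      ring
    have h2 := hta t₁ (by omega) (n₀ + 1)
    rw [← Finset.mul_sum] at h1
    have h3 : (N.J * nc * C₂ : ℝ) * (1 / (2 * (N.J * nc * C₂ + 1))) ≤ 1 / 2 := by
      rw [mul_one_div, div_le_div_iff₀ (by positivity) (by norm_num)]
      nlinarith
    calc μ.real E ≤ _ := h1
      _ ≤ (N.J * nc * C₂ : ℝ) * (1 / (2 * (N.J * nc * C₂ + 1))) := by gcongr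
      _ ≤ 1 / 2 := h3
  · -- the good points
    intro x hx y hy hxy
    obtain ⟨e, he1, he2⟩ := exists_lift (p ^ n₀ • (x - y))
    set τ : UnitAddCircle := ((e / (p : ℝ) ^ n₀ : ℝ) : UnitAddCircle) with hτ
    set ξ : UnitAddCircle := x - y - τ with hξ
    have hxyξ : x - y = ξ + τ := by rw [hξ]; abel
    have hn₀' : (0:ℝ) < (p:ℝ) ^ n₀ := by positivity
    have hξ0 : p ^ n₀ • ξ = 0 := by
      rw [hξ, smul_sub, ← he1, hτ, nsmul_coe']
      have : ((p ^ n₀ : ℕ) : ℝ) * (e / (p : ℝ) ^ n₀) = e := by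
        push_cast
        field_simp
      rw [this, sub_self]
    have hek : |e| ≤ 1 / (p : ℝ) ^ k₀ := he2.trans_le hxy
    obtain ⟨o, ho, hoT⟩ := exists_index hp hq N hξ0
    by_cases hk : p ^ k₀ • ξ = 0
    · rw [hxyξ, smul_add, hk, zero_add, hτ, nsmul_coe']
      refine (norm_coe_le _).trans ?_
      push_cast
      rw [abs_mul, abs_div, abs_of_pos (by positivity : (0:ℝ) < (p:ℝ) ^ k₀), abs_of_pos hn₀']
      have h1 : (p : ℝ) ^ n₀ = (p : ℝ) ^ (n₀ - k₀) * (p : ℝ) ^ k₀ := by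
        rw [← pow_add, Nat.sub_add_cancel hn₀]
      have h2 : |e| ≤ 1 := by
        refine hek.trans ?_
        rw [div_le_one (by positivity)]
        exact one_le_pow₀ hp1
      rw [h1, mul_div_assoc', div_le_div_iff₀ (by positivity) (by positivity)]
      have h3 : (0:ℝ) < (p : ℝ) ^ (n₀ - k₀) := by positivity
      have h4 : (0:ℝ) < (p : ℝ) ^ k₀ := by positivity
      calc (p : ℝ) ^ k₀ * |e| * (p : ℝ) ^ (n₀ - k₀) ≤ (p : ℝ) ^ k₀ * 1 * (p : ℝ) ^ (n₀ - k₀) := by
            gcongr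
        _ = 1 * ((p : ℝ) ^ (n₀ - k₀) * (p : ℝ) ^ k₀) := by ring
    · exfalso
      have hex : ∃ T, p ^ T • ξ = 0 := ⟨n₀, hξ0⟩
      set T := Nat.find hex with hT
      have hT0 : p ^ T • ξ = 0 := Nat.find_spec hex
      have hTmin : ∀ w, w < T → p ^ w • ξ ≠ 0 := fun w hw => Nat.find_min hex hw
      have hTn : T ≤ n₀ := Nat.find_min' hex hξ0
      have hkT : k₀ < T := by
        by_contra hle
        push Not at hle
        apply hk
        obtain ⟨c, hc⟩ := Nat.exists_eq_add_of_le hle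
        rw [hc, pow_add, mul_comm, mul_smul, hT0, smul_zero]
      set K := n₀ - T + k₀ with hK
      set v := min T K / c₁ with hv
      have hc₁0 : 0 < c₁ := hc₁1
      have hvlow : 2 ^ t₁ ≤ v := by
        rw [hv, Nat.le_div_iff_mul_le hc₁0, mul_comm]
        exact le_min hkT.le (by rw [hK]; omega)
      have hv0 : v ≠ 0 := by
        have : 0 < 2 ^ t₁ := by positivity
        omega
      set t := Nat.log 2 v with ht
      have ht2 : 2 ^ t ≤ v := Nat.pow_log_le_self 2 hv0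
      have ht3 : v < 2 ^ (t + 1) := Nat.lt_pow_succ_log_self (by norm_num) v
      have htt₁ : t₁ ≤ t := Nat.le_log_of_pow_le (by norm_num) hvlow
      have hcv : c₁ * v ≤ min T K := by
        rw [hv, mul_comm]; exact Nat.div_mul_le_self _ _
      have hcT : c₁ * 2 ^ t ≤ T :=
        (Nat.mul_le_mul_left _ ht2).trans (hcv.trans (min_le_left _ _))
      have hcK : c₁ * 2 ^ t ≤ K :=
        (Nat.mul_le_mul_left _ ht2).trans (hcv.trans (min_le_right _ _))
      have hup : min T K < c₁ * 2 ^ (t + 1) := by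
        have h1 : min T K < c₁ * (v + 1) := by
          rw [hv]
          exact Nat.lt_mul_div_succ _ hc₁0
        exact h1.trans_le (Nat.mul_le_mul_left _ ht3)
      have htn : t < n₀ + 1 := by
        have h1 : t < 2 ^ t := Nat.lt_two_pow_self
        have h2 : 2 ^ t ≤ c₁ * 2 ^ t := Nat.le_mul_of_pos_left _ hc₁0
        omega
      have ht0 : t₀ ≤ t := by omega
      have hst : 1 ≤ s t := hs1 t ht0
      have h2t : 2 ^ t ≤ AA * 2 ^ t := Nat.le_mul_of_pos_left _ hA1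
      obtain ⟨i, m, c, hc, hE', hloc⟩ := hedge o T (AA * 2 ^ t) (s t) (by omega)
        ((hoT T).1 hT0) (by
          have h1 := mt (hoT (T - 1)).2 (hTmin (T - 1) (by omega))
          push Not at h1
          exact h1) hst ((htb t (by omega)).trans h2t) (by
          refine le_trans ?_ hcT
          rw [hc₁, add_mul, add_mul]
          have : c₀ * (AA * 2 ^ t) = c₀ * AA * 2 ^ t := by ring
          omega)
      have hms : m * s t ≤ N.A i * T := by
        have := hE'.lo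
        have := (hoT T).1 hT0 i
        omega
      obtain ⟨u, hu1, hu2, hucon⟩ := hconc t ht0 i m c o T ξ ho hE'
      have huT : u ≤ N.A i * T := by
        have := (hoT T).1 hT0 i
        omega
      have hm : u ∈ Uset (N.A i) c₁ (c₀ * (AA * 2 ^ t)) n₀ k₀ t := by
        rcases min_lt_iff.1 hup with h | h
        · apply mem_Uset_left
          exact huT.trans (Nat.mul_le_mul_left _ h.le)
        · apply mem_Uset_right
          · have h1 : n₀ + k₀ ≤ T + c₁ * 2 ^ (t + 1) := by omega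
            calc N.A i * (n₀ + k₀) ≤ N.A i * (T + c₁ * 2 ^ (t + 1)) := Nat.mul_le_mul_left _ h1
              _ = N.A i * T + N.A i * (c₁ * 2 ^ (t + 1)) := by ring
              _ ≤ _ := by omega
          · exact huT.trans (Nat.mul_le_mul_left _ hTn)
      have hmem : ∀ x, x ∉ E → x ∉ B t i u c := by
        intro x hx hcon
        apply hx
        rw [hE]
        simp only [Set.mem_iUnion]
        exact ⟨t, Finset.mem_Ico.2 ⟨htt₁, htn⟩, i, Finset.mem_univ i, c, Finset.mem_range.2 hc,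
          u, hm, hcon⟩
      obtain ⟨hFne, hFx⟩ := hB t i u c ht0 (hE'.full.trans hu1)
      have hrt := hr t ht0
      refine pair_step (Z := Z t) (r := r t) hFne hxyξ ?_ (hFx x (hmem x hx)) (hFx y (hmem y hy))
        hucon
      intro w hw
      have hw' := hF t i u c hw
      rw [mem_strip, Finset.mem_Ico] at hw'
      obtain ⟨⟨hwb1, hwb2⟩, hw1, hw2⟩ := hw'
      have hwa : w.1 ≤ T := by
        have h1 : N.A i * w.1 ≤ N.A i * T := by
          have h2 : N.A i * w.1 + N.B i * w.2 < u * 1 + 1 := hw2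
          rw [mul_one] at h2
          omega
        exact Nat.le_of_mul_le_mul_left h1 (N.hA i)
      have hwb : w.2 ≤ nc * (AA * 2 ^ t) := by
        refine hwb2.le.trans (Nat.mul_le_mul_right _ ?_)
        omega
      rw [hτ, nsmul_coe']
      refine (norm_coe_le _).trans ?_
      rw [nn]
      push_cast
      rw [abs_mul, abs_div, abs_of_pos hn₀', abs_of_pos (by positivity)]
      have h1 : (p : ℝ) ^ w.1 * (q : ℝ) ^ w.2 ≤ (p : ℝ) ^ T * (q : ℝ) ^ (nc * (AA * 2 ^ t)) := by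
        gcongr
      have h2 : (q : ℝ) ^ (nc * (AA * 2 ^ t)) ≤ r t * (p : ℝ) ^ K := by
        have h3 : (q : ℝ) ≤ 2 ^ q := by exact_mod_cast Nat.lt_two_pow_self.le
        have h4 := hr2 t ht0
        calc (q : ℝ) ^ (nc * (AA * 2 ^ t)) ≤ ((2:ℝ) ^ q) ^ (nc * (AA * 2 ^ t)) := by gcongr
          _ = 2 ^ (q * (nc * AA) * 2 ^ t) := by rw [← pow_mul]; congr 1; ring
          _ ≤ (r t * 2 ^ (2 ^ t)) * 2 ^ (q * (nc * AA) * 2 ^ t) := by
              have : (0:ℝ) < 2 ^ (q * (nc * AA) * 2 ^ t) := by positivity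
              nlinarith
          _ = r t * 2 ^ ((q * (nc * AA) + 1) * 2 ^ t) := by
              rw [mul_assoc, ← pow_add]; congr 2; ring
          _ ≤ r t * 2 ^ (c₁ * 2 ^ t) := by
              gcongr
              · norm_num
              · rw [hc₁]; omega
          _ ≤ r t * (p : ℝ) ^ (c₁ * 2 ^ t) := by
              gcongr
              exact_mod_cast hp
          _ ≤ r t * (p : ℝ) ^ K := by
              gcongr
      have h3 : (p : ℝ) ^ T * (p : ℝ) ^ K = (p : ℝ) ^ n₀ * (p : ℝ) ^ k₀ := by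
        rw [← pow_add, ← pow_add]; congr 1; omega
      calc (p : ℝ) ^ w.1 * (q : ℝ) ^ w.2 * (|e| / (p : ℝ) ^ n₀)
          ≤ ((p : ℝ) ^ T * (r t * (p : ℝ) ^ K)) * ((1 / (p : ℝ) ^ k₀) / (p : ℝ) ^ n₀) := by
            have h5 : |e| / (p : ℝ) ^ n₀ ≤ (1 / (p : ℝ) ^ k₀) / (p : ℝ) ^ n₀ := by gcongr
            have h6 : (p : ℝ) ^ w.1 * (q : ℝ) ^ w.2 ≤ (p : ℝ) ^ T * (r t * (p : ℝ) ^ K) :=
              h1.trans (by gcongr)
            exact mul_le_mul h6 h5 (by positivity) (by positivity)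
        _ = r t * ((p : ℝ) ^ T * (p : ℝ) ^ K) / ((p : ℝ) ^ n₀ * (p : ℝ) ^ k₀) := by
            field_simp
        _ = r t := by
            rw [h3]; field_simp

end Pool.Agent.H.MP_96e181_an.rs
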