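import Mathlib
import Pool.Agent.H.MP_96e181_an.Digits
import Pool.Agent.H.MP_96e181_an.gen.NormalForm
import Pool.Agent.H.MP_96e181_an.gen.ErgConv
import Pool.Agent.H.MP_96e181_an.gen.Strip
import Pool.Agent.H.MP_96e181_an.gen.Main
import Pool.Agent.H.MP_96e181_an.rs.Line
import Pool.Agent.H.MP_96e181_an.rs.Master2

set_option autoImplicit false

namespace Pool.Agent.H.MP_96e181_an.rs

open MeasureTheory Filter Topology Set
open scoped ENNReal

open Pool.Agent.H.MP_96e181_an (rep dig dig_spec dig_lt measurable_dig coe_rep)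
open Pool.Agent.H.MP_96e181_an.Blk
open Pool.Agent.H.MP_96e181_an.Gen
open Pool.Agent.H.MP_96e181_an.Gen.ErgAux

/-- The set of points most of whose orbit along `F` stays near `Z` is large. -/
theorem out_bad {p q : ℕ} {μ : Measure UnitAddCircle} [IsProbabilityMeasure μ]
    (hμp : MeasurePreserving (fun x : UnitAddCircle => p • x) μ μ)
    (hμq : MeasurePreserving (fun x : UnitAddCircle => q • x) μ μ)
    (Z : Finset UnitAddCircle) (r : ℝ) {F : Finset (ℕ × ℕ)} (hF : F.Nonempty) {τ : ℝ}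
    (hτ : μ.real (nbh Z r)ᶜ ≤ τ) :
    ∃ E : Set UnitAddCircle, MeasurableSet E ∧ μ.real E ≤ 8 * τ ∧
      ∀ x, x ∉ E → 8 * (outCount p q Z r F x : ℝ) ≤ F.card := by
  classical
  have hN : (0 : ℝ) < F.card := by exact_mod_cast hF.card_pos
  have hmeas : MeasurableSet (nbh Z r)ᶜ := by
    refine MeasurableSet.compl ?_
    unfold nbh
    exact Finset.measurableSet_biUnion _ fun z _ => Metric.isClosed_closedBall.measurableSet
  set A : ℕ × ℕ → Set UnitAddCircle := fun v =>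
    (fun x : UnitAddCircle => nn p q v • x) ⁻¹' (nbh Z r)ᶜ with hA
  have hAm : ∀ v, MeasurableSet (A v) := fun v =>
    (mp_nn (p := p) (q := q) hμp hμq v).measurable hmeas
  have hAμ : ∀ v, μ.real (A v) = μ.real (nbh Z r)ᶜ := by
    intro v
    rw [hA]
    simp only
    rw [measureReal_def, measureReal_def,
      (mp_nn (p := p) (q := q) hμp hμq v).measure_preimage hmeas.nullMeasurableSet]
  set f : UnitAddCircle → ℝ := fun x => ∑ v ∈ F, (A v).indicator (fun _ => (1 : ℝ)) x with hf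
  have hfi : ∀ v, Integrable ((A v).indicator (fun _ => (1 : ℝ))) μ := fun v =>
    (integrable_const (1 : ℝ)).indicator (hAm v)
  have hf0 : ∀ x, 0 ≤ f x := fun x => Finset.sum_nonneg fun v _ =>
    Set.indicator_nonneg (fun _ _ => zero_le_one) x
  have hint : ∫ x, f x ∂μ = F.card * μ.real (nbh Z r)ᶜ := by
    rw [hf, integral_finsetSum _ fun v _ => hfi v]
    rw [Finset.sum_congr rfl fun v _ => by
      rw [integral_indicator_const _ (hAm v), smul_eq_mul, mul_one, hAμ v]]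
    rw [Finset.sum_const, nsmul_eq_mul]
  have hcount : ∀ x, (outCount p q Z r F x : ℝ) = f x := by
    intro x
    rw [hf]
    simp only [outCount]
    rw [Finset.card_filter]
    push_cast
    refine Finset.sum_congr rfl fun v _ => ?_
    by_cases h : nn p q v • x ∈ nbh Z r
    · rw [Set.indicator_of_notMem (by simpa [hA] using h)]
      simp [h]
    · rw [Set.indicator_of_mem (by simpa [hA] using h)]
      simp [h]
  have hfm : Measurable f := by
    rw [hf]
    exact Finset.measurable_sum _ fun v _ => measurable_const.indicator (hAm v)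
  refine ⟨{x | (F.card : ℝ) / 8 ≤ f x} ∩ {x | (F.card : ℝ) / 8 < f x},
    (measurableSet_le measurable_const hfm).inter (measurableSet_lt measurable_const hfm), ?_, ?_⟩
  · have hms := mul_meas_ge_le_integral_of_nonneg (μ := μ) (f := f)
      (Filter.Eventually.of_forall hf0) (integrable_finsetSum _ fun v _ => hfi v)
      ((F.card : ℝ) / 8)
    rw [hint] at hms
    have h1 : μ.real ({x | (F.card : ℝ) / 8 ≤ f x} ∩ {x | (F.card : ℝ) / 8 < f x}) ≤
        μ.real {x | (F.card : ℝ) / 8 ≤ f x} := measureReal_mono Set.inter_subset_left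
    refine h1.trans ?_
    have h2 : (F.card : ℝ) / 8 * μ.real {x | (F.card : ℝ) / 8 ≤ f x} ≤ F.card * τ :=
      hms.trans (by gcongr)
    have h3 : (F.card : ℝ) * μ.real {x | (F.card : ℝ) / 8 ≤ f x} ≤ F.card * (8 * τ) := by
      linarith
    exact le_of_mul_le_mul_left h3 hN
  · intro x hx
    rw [hcount]
    by_contra hcon
    push Not at hcon
    apply hx
    have h1 : (F.card : ℝ) / 8 < f x := by linarith
    exact ⟨h1.le, h1⟩

/-- **The covering theorem for all multiplicatively independent pairs**, second version. -/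
theorem covering2 {p q : ℕ} (hp : 2 ≤ p) (hq : 2 ≤ q)
    (hirr : Irrational (Real.log (p : ℝ) / Real.log (q : ℝ)))
    {μ : Measure UnitAddCircle} [IsProbabilityMeasure μ] [NullSingletonClass μ]
    (hμp : MeasurePreserving (fun x : UnitAddCircle => p • x) μ μ)
    (hμq : MeasurePreserving (fun x : UnitAddCircle => q • x) μ μ)
    {a b l : ℝ} (ha : a < 1 / 2) (hl : 1 ≤ l) (hb : l < b)
    (H : ∀ᶠ n : ℕ in atTop, ∃ m : ℕ, n ≤ m ∧ (m : ℝ) ≤ l * n ∧ ∃ S : Finset ℕ,
      (S.card : ℝ) ≤ (p : ℝ) ^ (a * m) ∧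
      μ {x : UnitAddCircle | dig (p ^ m) x ∉ S} ≤ ENNReal.ofReal ((p : ℝ) ^ (-(b * m)))) : False := by
  classical
  have hp1 : (1 : ℝ) < p := by exact_mod_cast (by omega : 1 < p)
  have hp0 : (0 : ℝ) < p := by linarith
  have hl0 : 0 < l := by linarith
  have hb0 : 0 < b := by linarith
  have h12a : 0 < 1 - 2 * a := by linarith
  obtain ⟨N⟩ := exists_nf hp hq hirr
  obtain ⟨C, hC1, hC⟩ := line_conc N
  obtain ⟨n0, hn0⟩ := eventually_atTop.1 H
  choose! m hm using hn0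
  have hm1 : ∀ n, n0 ≤ n → n ≤ m n := fun n hn => (hm n hn).1
  have hm2 : ∀ n, n0 ≤ n → (m n : ℝ) ≤ l * n := fun n hn => (hm n hn).2.1
  have hm3 := fun n (hn : n0 ≤ n) => (hm n hn).2.2
  choose! S hS using hm3
  -- the scales
  set nt : ℕ → ℕ := fun t => ⌊(Nat.log p (2 ^ t) : ℝ) / l⌋₊ with hnt
  have hntt : Tendsto nt atTop atTop := by
    have h1 : Tendsto (fun t : ℕ => Nat.log p (2 ^ t)) atTop atTop := by
      refine tendsto_atTop_atTop.2 fun n => ⟨p * n, fun t ht => ?_⟩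
      refine Nat.le_log_of_pow_le (by omega) ?_
      calc p ^ n ≤ (2 ^ p) ^ n := Nat.pow_le_pow_left Nat.lt_two_pow_self.le _
        _ = 2 ^ (p * n) := by rw [← pow_mul]
        _ ≤ 2 ^ t := Nat.pow_le_pow_right (by norm_num) ht
    have h2 : Tendsto (fun t : ℕ => (Nat.log p (2 ^ t) : ℝ) / l) atTop atTop :=
      (tendsto_natCast_atTop_atTop.comp h1).atTop_div_const (by linarith)
    exact tendsto_nat_floor_atTop.comp h2
  set Kc : ℝ := 2 * ((C + 1) * (5 * p + 1)) with hKc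
  have hKc0 : 0 < Kc := by positivity
  obtain ⟨m0, hm0⟩ : ∃ m0 : ℕ, ∀ m : ℕ, m0 ≤ m → Kc ≤ (p : ℝ) ^ ((1 - 2 * a) * m) := by
    have h1 : Tendsto (fun m : ℕ => ((p : ℝ) ^ (1 - 2 * a)) ^ m) atTop atTop :=
      tendsto_pow_atTop_atTop_of_one_lt (Real.one_lt_rpow hp1 h12a)
    obtain ⟨m0, h2⟩ := eventually_atTop.1 (h1.eventually (eventually_ge_atTop Kc))
    refine ⟨m0, fun m hm => ?_⟩
    rw [Real.rpow_mul hp0.le, Real.rpow_natCast]
    exact h2 m hm
  obtain ⟨t0, ht0⟩ := eventually_atTop.1 (hntt.eventually (eventually_ge_atTop (n0 + m0)))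
  have hnb : ∀ t, t0 + 1 ≤ t → n0 + m0 ≤ nt t := fun t ht => ht0 t (by omega)
  set mt : ℕ → ℕ := fun t => m (nt t) with hmt
  have hmtlog : ∀ t, t0 + 1 ≤ t → mt t ≤ Nat.log p (2 ^ t) := by
    intro t ht
    have h1 := hm2 (nt t) (by have := hnb t ht; omega)
    have h2 : ((nt t : ℕ) : ℝ) ≤ (Nat.log p (2 ^ t) : ℝ) / l := Nat.floor_le (by positivity)
    have h3 : (mt t : ℝ) ≤ (Nat.log p (2 ^ t) : ℝ) := by
      refine h1.trans ?_
      rw [le_div_iff₀ hl0] at h2
      linarith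
    exact_mod_cast h3
  have hX2 : ∀ t, t0 + 1 ≤ t → p ^ mt t ≤ 2 ^ t := by
    intro t ht
    exact (Nat.pow_le_pow_right (by omega) (hmtlog t ht)).trans
      (Nat.pow_log_le_self p (by positivity))
  have hXpos : ∀ t, (0 : ℝ) < (p : ℝ) ^ mt t := fun t => by positivity
  set Z : ℕ → Finset UnitAddCircle := fun t =>
    (S (nt t)).image (fun a : ℕ => (((a : ℝ) / (p : ℝ) ^ mt t : ℝ) : UnitAddCircle)) with hZ
  set r : ℕ → ℝ := fun t => 1 / (2 * (p : ℝ) ^ mt t) with hr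
  have hZc : ∀ t, ((Z t).card : ℝ) ≤ (S (nt t)).card := fun t => by
    exact_mod_cast Finset.card_image_le
  have hZcard : ∀ t, t0 + 1 ≤ t → Kc * ((Z t).card : ℝ) ^ 2 ≤ (p : ℝ) ^ mt t := by
    intro t ht
    have h1 := hnb t ht
    obtain ⟨h3, -⟩ := hS (nt t) (by omega)
    have h4 : ((Z t).card : ℝ) ≤ (p : ℝ) ^ (a * mt t) := (hZc t).trans h3
    have h5 : ((Z t).card : ℝ) ^ 2 ≤ (p : ℝ) ^ (2 * a * mt t) := by
      calc ((Z t).card : ℝ) ^ 2 ≤ ((p : ℝ) ^ (a * mt t)) ^ 2 := by gcongr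
        _ = (p : ℝ) ^ (2 * a * mt t) := by
            rw [← Real.rpow_natCast, ← Real.rpow_mul hp0.le]
            congr 1
            push_cast
            ring
    have h6 := hm0 (mt t) (by
      have := hm1 (nt t) (by omega)
      simp only [hmt]
      omega)
    calc Kc * ((Z t).card : ℝ) ^ 2 ≤ (p : ℝ) ^ ((1 - 2 * a) * mt t) * (p : ℝ) ^ (2 * a * mt t) := by
          gcongr
      _ = (p : ℝ) ^ mt t := by
          rw [← Real.rpow_add hp0, ← Real.rpow_natCast]
          congr 1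
          ring
  -- near the cells
  have hnear : ∀ t, (nbh (Z t) (2 * r t))ᶜ ⊆
      {x : UnitAddCircle | dig (p ^ mt t) x ∉ S (nt t)} := by
    intro t x hx hmem
    apply hx
    have hmem' : dig (p ^ mt t) x ∈ S (nt t) := hmem
    simp only [nbh, mem_iUnion, exists_prop]
    refine ⟨(((dig (p ^ mt t) x : ℝ) / (p : ℝ) ^ mt t : ℝ) : UnitAddCircle),
      Finset.mem_image.2 ⟨_, hmem', rfl⟩, ?_⟩
    have h1 := dig_spec (D := p ^ mt t) (by positivity) x
    push_cast at h1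
    rw [Metric.mem_closedBall, dist_eq_norm]
    have e0 : x - (((dig (p ^ mt t) x : ℝ) / (p : ℝ) ^ mt t : ℝ) : UnitAddCircle) =
        ((rep x - (dig (p ^ mt t) x : ℝ) / (p : ℝ) ^ mt t : ℝ) : UnitAddCircle) := by
      rw [AddCircle.coe_sub, coe_rep]
    rw [e0]
    refine (norm_coe_le _).trans ?_
    rw [abs_of_nonneg (by linarith [h1.1])]
    have h2 : 2 * r t = 1 / (p : ℝ) ^ mt t := by
      simp only [hr]
      field_simp
    rw [h2]
    linarith [h1.2]
  have htail : ∀ t, t0 + 1 ≤ t → μ.real (nbh (Z t) (2 * r t))ᶜ ≤ (p : ℝ) ^ (-(b * mt t)) := by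
    intro t ht
    have h1 := hnb t ht
    obtain ⟨-, h4⟩ := hS (nt t) (by omega)
    have h5 : μ (nbh (Z t) (2 * r t))ᶜ ≤ ENNReal.ofReal ((p : ℝ) ^ (-(b * mt t))) :=
      (measure_mono (hnear t)).trans h4
    exact ENNReal.toReal_le_of_le_ofReal (by positivity) h5
  set AA : ℕ := ∏ j, N.A j with hAA
  have hA1 : 1 ≤ AA := Nat.succ_le_of_lt (Finset.prod_pos
    (fun j _ => Nat.lt_of_lt_of_le Nat.zero_lt_one (N.hA j)))
  have hAdvd : ∀ i, N.A i ∣ AA := fun i => Finset.dvd_prod_of_mem N.A (Finset.mem_univ i)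
  have hAl : ∀ i t, N.A i ∣ AA * 2 ^ t := fun i t => (hAdvd i).trans (dvd_mul_right _ _)
  have hMt : ∀ i t, 2 ^ t ≤ AA * 2 ^ t / N.A i := by
    intro i t
    have hAi := N.hA i
    rw [Nat.le_div_iff_mul_le (by omega), mul_comm]
    exact Nat.mul_le_mul_right _ (Nat.le_of_dvd hA1 (hAdvd i))
  have hcardF : ∀ t i u c, N.B i * ((c + 1) * (AA * 2 ^ t)) ≤ u →
      (strip N i 1 (AA * 2 ^ t) u c).card = AA * 2 ^ t / N.A i := by
    intro t i u c h
    rw [card_strip N i (hAl i t) (by rw [mul_one]; exact h), one_mul]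
  refine master2 hp hq N hμp Z r (fun t => t) (t0 + 1) (fun t ht => ?_) (fun t ht => ?_)
    (fun t ht => by omega) ?_ (fun t i u c => strip N i 1 (AA * 2 ^ t) u c)
    (fun t i u c => Finset.Subset.refl _) (fun t => 8 * (p : ℝ) ^ (-(b * mt t)))
    (fun t => by positivity) ?_ ?_ ?_
  · simp only [hr]; positivity
  · -- the radius is not too small
    have h1 : (p : ℝ) ^ mt t ≤ 2 ^ t := by exact_mod_cast hX2 t ht
    have h2 : (2 : ℝ) ^ (t + 1) ≤ 2 ^ (2 ^ t) :=
      pow_le_pow_right₀ (by norm_num) Nat.lt_two_pow_self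
    simp only [hr]
    rw [one_div, inv_mul_eq_div, one_le_div (by positivity)]
    calc 2 * (p : ℝ) ^ mt t ≤ 2 * 2 ^ t := by gcongr
      _ = 2 ^ (t + 1) := by rw [pow_succ]; ring
      _ ≤ 2 ^ (2 ^ t) := h2
  · intro c
    have h1 : Tendsto (fun t : ℕ => (t : ℝ) ^ 1 / (2:ℝ) ^ t) atTop (𝓝 0) :=
      tendsto_pow_const_div_const_pow_of_one_lt 1 (by norm_num)
    have h2 : ∀ᶠ t : ℕ in atTop, (t : ℝ) ^ 1 / (2:ℝ) ^ t < 1 / ((c : ℝ) + 1) :=
      h1.eventually (gt_mem_nhds (by positivity))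
    rw [eventually_atTop] at h2
    obtain ⟨t₁, ht₁⟩ := h2
    refine ⟨t₁, fun t ht => ?_⟩
    have h3 := ht₁ t ht
    rw [pow_one, div_lt_div_iff₀ (by positivity) (by positivity), one_mul] at h3
    have h4 : t * (c + 1) < 2 ^ t := by exact_mod_cast h3
    calc c * t ≤ t * (c + 1) := by nlinarith
      _ ≤ 2 ^ t := h4.le
  · -- summability
    have hbl : 1 < b / l := (one_lt_div hl0).2 hb
    have hq1 : (2 : ℝ) ^ (1 - b / l) < 1 :=
      Real.rpow_lt_one_of_one_lt_of_neg (by norm_num) (by linarith)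
    have h1 : Summable (fun t : ℕ => (8 * ((p : ℝ) ^ b * (p : ℝ) ^ (b / l))) *
        ((2 : ℝ) ^ (1 - b / l)) ^ t) :=
      (summable_geometric_of_lt_one (by positivity) hq1).mul_left _
    refine Summable.of_norm_bounded_eventually_nat h1 ?_
    filter_upwards [eventually_ge_atTop (t0 + 1)] with t ht
    rw [Real.norm_of_nonneg (by positivity)]
    have h9 : (nt t : ℝ) ≤ (mt t : ℝ) := by
      exact_mod_cast hm1 (nt t) (by have := hnb t ht; omega)
    have h10 : (Nat.log p (2 ^ t) : ℝ) / l - 1 < (nt t : ℝ) := Nat.sub_one_lt_floor _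
    have h8 : (2 : ℝ) ^ t / p ≤ (p : ℝ) ^ (Nat.log p (2 ^ t)) := by
      have g1 : 2 ^ t < p ^ (Nat.log p (2 ^ t) + 1) := Nat.lt_pow_succ_log_self (by omega) _
      have g3 : (2 : ℝ) ^ t ≤ (p : ℝ) ^ (Nat.log p (2 ^ t) + 1) := by exact_mod_cast g1.le
      rw [div_le_iff₀ hp0]
      rw [pow_succ] at g3
      exact g3
    have h12 : (p : ℝ) ^ (-(b * (mt t : ℝ))) ≤
        (p : ℝ) ^ b * ((p : ℝ) ^ (b / l) * (((2 : ℝ) ^ t) ^ (b / l))⁻¹) := by
      calc (p : ℝ) ^ (-(b * (mt t : ℝ)))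
          ≤ (p : ℝ) ^ (-(b * ((Nat.log p (2 ^ t) : ℝ) / l - 1))) := by
            apply Real.rpow_le_rpow_of_exponent_le hp1.le
            have := mul_le_mul_of_nonneg_left (h10.le.trans h9) hb0.le
            linarith
        _ = (p : ℝ) ^ b * (((p : ℝ) ^ (Nat.log p (2 ^ t))) ^ (b / l))⁻¹ := by
            rw [← Real.rpow_natCast, ← Real.rpow_mul hp0.le, ← Real.rpow_neg hp0.le,
              ← Real.rpow_add hp0]
            congr 1
            ring
        _ ≤ (p : ℝ) ^ b * (((2 : ℝ) ^ t / p) ^ (b / l))⁻¹ := by gcongr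
        _ = (p : ℝ) ^ b * ((p : ℝ) ^ (b / l) * (((2 : ℝ) ^ t) ^ (b / l))⁻¹) := by
            rw [Real.div_rpow (by positivity) hp0.le, inv_div]
            rfl
    calc (2 : ℝ) ^ t * (8 * (p : ℝ) ^ (-(b * (mt t : ℝ))))
        ≤ (2 : ℝ) ^ t * (8 * ((p : ℝ) ^ b * ((p : ℝ) ^ (b / l) *
            (((2 : ℝ) ^ t) ^ (b / l))⁻¹))) := by gcongr
      _ = (8 * ((p : ℝ) ^ b * (p : ℝ) ^ (b / l))) * ((2 : ℝ) ^ t *
            (((2 : ℝ) ^ t) ^ (b / l))⁻¹) := by ring
      _ = (8 * ((p : ℝ) ^ b * (p : ℝ) ^ (b / l))) * ((2 : ℝ) ^ (1 - b / l)) ^ t := by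
          congr 1
          rw [← Real.rpow_natCast 2 t, ← Real.rpow_mul (by norm_num),
            ← Real.rpow_neg (by norm_num), ← Real.rpow_add (by norm_num),
            ← Real.rpow_natCast ((2 : ℝ) ^ (1 - b / l)) t, ← Real.rpow_mul (by norm_num)]
          congr 1
          ring
  · -- the bad sets
    intro t ht i u c hfull
    have hcard := hcardF t i u c hfull
    have hpos : 0 < (strip N i 1 (AA * 2 ^ t) u c).card := by
      rw [hcard]
      exact lt_of_lt_of_le (by positivity) (hMt i t)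
    have hne : (strip N i 1 (AA * 2 ^ t) u c).Nonempty := Finset.card_pos.1 hpos
    exact ⟨hne, out_bad hμp hμq (Z t) (2 * r t) hne (htail t ht)⟩
  · -- non-concentration
    intro t ht i m' c o T ξ ho hE
    have hcard0 := hE.full
    obtain ⟨u, hu1, hu2, hu3⟩ := hC i t (AA * 2 ^ t) m' c T (p ^ mt t) o ξ (hAl i t) ho hE
      (Nat.one_le_pow _ _ (by omega)) (hX2 t ht)
    refine ⟨u, hu1, hu2, fun z => ?_⟩
    have hcard := hcardF t i u c (hcard0.trans hu1)
    have h1 := hu3 z (5 * r t) (by simp only [hr]; positivity)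
    rw [hcard]
    set M : ℝ := ((AA * 2 ^ t / N.A i : ℕ) : ℝ) with hM
    have hMX : (p : ℝ) ^ mt t ≤ M := by
      rw [hM]
      exact_mod_cast (hX2 t ht).trans (hMt i t)
    push_cast at h1
    have h2 : 2 * (5 * r t) * ((N.R i : ℝ) * (p : ℝ) ^ mt t) = 5 * N.R i := by
      simp only [hr]
      field_simp
    rw [h2] at h1
    have hRp : (N.R i : ℝ) ≤ p := by exact_mod_cast R_le hp N i
    have h3 : (M * C / (p : ℝ) ^ mt t + 1) * (5 * (N.R i : ℝ) + 1) ≤
        M / (p : ℝ) ^ mt t * ((C + 1) * (5 * p + 1)) := by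
      have h4 : (1 : ℝ) ≤ M / (p : ℝ) ^ mt t := (one_le_div (hXpos t)).2 hMX
      calc (M * C / (p : ℝ) ^ mt t + 1) * (5 * (N.R i : ℝ) + 1)
          ≤ (M / (p : ℝ) ^ mt t * (C + 1)) * (5 * p + 1) := by
            gcongr
            have : M * C / (p : ℝ) ^ mt t = M / (p : ℝ) ^ mt t * C := by ring
            rw [this]
            linarith
        _ = _ := by ring
    have h5 := h1.trans h3
    have h6 := hZcard t ht
    have hX0 := hXpos t
    calc 2 * ((Z t).card : ℝ) ^ 2 * _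
        ≤ 2 * ((Z t).card : ℝ) ^ 2 * (M / (p : ℝ) ^ mt t * ((C + 1) * (5 * p + 1))) := by
          gcongr
      _ = (Kc * ((Z t).card : ℝ) ^ 2) * (M / (p : ℝ) ^ mt t) := by rw [hKc]; ring
      _ ≤ (p : ℝ) ^ mt t * (M / (p : ℝ) ^ mt t) := by gcongr
      _ = M := by field_simp

end Pool.Agent.H.MP_96e181_an.rs
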