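import Mathlib
import Pool.Agent.H.MP_96e181_an.helper43.Renyi
import Pool.Agent.H.MP_96e181_an.rs.Cover

set_option autoImplicit false

namespace Pool.Agent.H.MP_96e181_an.rs

open MeasureTheory Filter Topology Set
open scoped ENNReal NNReal

open Pool.Agent.H.MP_96e181_an (rep dig dig_spec dig_lt measurable_dig coe_rep rep_nonneg)

/-- Heavy cells and light cells for a moment bound. -/
theorem heavy {D : ℕ} (hD : 0 < D) {μ : Measure UnitAddCircle} [IsProbabilityMeasure μ]
    {s Z τ : ℝ} (hs : 0 < s) (hs1 : s < 1) (hτ0 : 0 < τ)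
    (hZ : ∑ a ∈ Finset.range D, (μ.real {x : UnitAddCircle | dig D x = a}) ^ s ≤ Z) :
    ∃ S : Finset ℕ, (S.card : ℝ) * τ ^ s ≤ Z ∧
      μ {x : UnitAddCircle | dig D x ∉ S} ≤ ENNReal.ofReal (τ ^ (1 - s) * Z) := by
  set w : ℕ → ℝ := fun a => μ.real {x : UnitAddCircle | dig D x = a} with hw
  have hw0 : ∀ a, 0 ≤ w a := fun a => measureReal_nonneg
  refine ⟨(Finset.range D).filter (fun a => τ ≤ w a), ?_, ?_⟩
  · refine le_trans ?_ hZ
    rw [← nsmul_eq_mul, ← Finset.sum_const]
    refine (Finset.sum_le_sum fun a ha => ?_).trans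
      (Finset.sum_le_sum_of_subset_of_nonneg (Finset.filter_subset _ _)
        (fun a _ _ => Real.rpow_nonneg (hw0 a) s))
    exact Real.rpow_le_rpow hτ0.le (Finset.mem_filter.1 ha).2 hs.le
  · have hsub : {x : UnitAddCircle | dig D x ∉ (Finset.range D).filter (fun a => τ ≤ w a)} ⊆
        ⋃ a ∈ (Finset.range D).filter (fun a => w a < τ), {x : UnitAddCircle | dig D x = a} := by
      intro x hx
      have h1 : dig D x < D := dig_lt hD x
      have hx' : dig D x ∉ (Finset.range D).filter (fun a => τ ≤ w a) := hx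
      rw [Finset.mem_filter, not_and, not_le] at hx'
      simp only [mem_iUnion, Finset.mem_filter, Finset.mem_range]
      exact ⟨dig D x, ⟨h1, hx' (Finset.mem_range.2 h1)⟩, rfl⟩
    refine (measure_mono hsub).trans ((measure_biUnion_finset_le _ _).trans ?_)
    have h3 : ∑ a ∈ (Finset.range D).filter (fun a => w a < τ),
        μ {x : UnitAddCircle | dig D x = a} =
        ENNReal.ofReal (∑ a ∈ (Finset.range D).filter (fun a => w a < τ), w a) := by
      rw [ENNReal.ofReal_sum_of_nonneg (fun a _ => hw0 a)]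
      refine Finset.sum_congr rfl fun a _ => ?_
      rw [hw, ofReal_measureReal]
    rw [h3]
    apply ENNReal.ofReal_le_ofReal
    have h4 : ∀ a ∈ (Finset.range D).filter (fun a => w a < τ), w a ≤ τ ^ (1 - s) * w a ^ s := by
      intro a ha
      have hlt := (Finset.mem_filter.1 ha).2
      rcases (hw0 a).eq_or_lt with h0 | h0
      · rw [← h0, Real.zero_rpow hs.ne', mul_zero]
      · calc w a = w a ^ (1 - s) * w a ^ s := by
              rw [← Real.rpow_add h0]; simp
          _ ≤ τ ^ (1 - s) * w a ^ s := by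
              have : 0 ≤ 1 - s := by linarith
              gcongr
    have h5 : ∑ a ∈ (Finset.range D).filter (fun a => w a < τ), w a ^ s ≤ Z :=
      (Finset.sum_le_sum_of_subset_of_nonneg (Finset.filter_subset _ _)
            (fun a _ _ => Real.rpow_nonneg (hw0 a) s)).trans hZ
    calc ∑ a ∈ (Finset.range D).filter (fun a => w a < τ), w a
        ≤ ∑ a ∈ (Finset.range D).filter (fun a => w a < τ), τ ^ (1 - s) * w a ^ s :=
          Finset.sum_le_sum h4
      _ = τ ^ (1 - s) * ∑ a ∈ (Finset.range D).filter (fun a => w a < τ), w a ^ s := by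
          rw [Finset.mul_sum]
      _ ≤ τ ^ (1 - s) * Z := mul_le_mul_of_nonneg_left h5 (by positivity)

/-- Positive Rényi entropy of small order for all multiplicatively independent pairs. -/
theorem renyi {p q : ℕ} (hp : 2 ≤ p) (hq : 2 ≤ q)
    (hirr : Irrational (Real.log q / Real.log p))
    {μ : Measure UnitAddCircle} [IsProbabilityMeasure μ] [NullSingletonClass μ]
    (hμp : MeasurePreserving (fun x : UnitAddCircle => p • x) μ μ)
    (hμq : MeasurePreserving (fun x : UnitAddCircle => q • x) μ μ)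
    {s c l : ℝ} (hs : 0 < s) (hl : 1 ≤ l) (hc0 : 0 ≤ c) (hc : c < (1 - (1 + 4 * l) * s) / 2) :
    ∃ᶠ n : ℕ in atTop, ∀ m : ℕ, n ≤ m → (m : ℝ) ≤ l * n →
      (p : ℝ) ^ (c * m) < ∑ a ∈ Finset.range (p ^ m),
        (μ.real {x : UnitAddCircle | dig (p ^ m) x = a}) ^ s := by
  intro hcon
  have hp0 : (0 : ℝ) < p := by positivity
  have h1s : 0 < 1 - s := by nlinarith
  obtain ⟨t, ht1, ht2⟩ : ∃ t : ℝ, (2 * l + c) / (1 - s) < t ∧ t < (1 / 2 - c) / s := by
    apply exists_between
    rw [div_lt_div_iff₀ h1s hs]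
    nlinarith
  rw [div_lt_iff₀ h1s] at ht1
  rw [lt_div_iff₀ hs] at ht2
  refine covering hp hq hirr hμp hμq (a := c + t * s) (b := t * (1 - s) - c) (l := l)
    (by linarith) hl (by linarith) ?_
  filter_upwards [hcon] with n hn'
  push Not at hn'
  obtain ⟨m, hnm, hml, hn⟩ := hn'
  refine ⟨m, hnm, hml, ?_⟩
  set τ : ℝ := (p : ℝ) ^ (-(t * m)) with hτ
  have hτ0 : 0 < τ := by positivity
  obtain ⟨S, hS1, hS2⟩ := heavy (D := p ^ m) (by positivity) hs (by linarith) hτ0 hn
  refine ⟨S, ?_, hS2.trans (ENNReal.ofReal_le_ofReal (le_of_eq ?_))⟩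
  · have h2 : (p : ℝ) ^ ((c + t * s) * m) = (p : ℝ) ^ (c * m) / τ ^ s := by
      rw [hτ, ← Real.rpow_mul hp0.le, ← Real.rpow_sub hp0]
      congr 1
      ring
    rw [h2, le_div_iff₀ (by positivity)]
    exact hS1
  · rw [hτ, ← Real.rpow_mul hp0.le, ← Real.rpow_add hp0]
    congr 1
    ring

end Pool.Agent.H.MP_96e181_an.rs
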