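import Mathlib
import Pool.Agent.H.MP_96e181_an.rs.Renyi
import Pool.Agent.H.MP_96e181_an.rs.Cover2

set_option autoImplicit false

namespace Pool.Agent.H.MP_96e181_an.rs

open MeasureTheory Filter Topology Set
open scoped ENNReal NNReal

open Pool.Agent.H.MP_96e181_an (rep dig dig_spec dig_lt measurable_dig coe_rep rep_nonneg)

/-- Positive Rényi entropy of every order below `1/3` for all multiplicatively independent
pairs. -/
theorem renyi2 {p q : ℕ} (hp : 2 ≤ p) (hq : 2 ≤ q)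
    (hirr : Irrational (Real.log (p : ℝ) / Real.log (q : ℝ)))
    {μ : Measure UnitAddCircle} [IsProbabilityMeasure μ] [NullSingletonClass μ]
    (hμp : MeasurePreserving (fun x : UnitAddCircle => p • x) μ μ)
    (hμq : MeasurePreserving (fun x : UnitAddCircle => q • x) μ μ)
    {s c l : ℝ} (hs : 0 < s) (hl : 1 ≤ l) (hc0 : 0 ≤ c) (hc : c < (1 - (1 + 2 * l) * s) / 2) :
    ∃ᶠ n : ℕ in atTop, ∀ m : ℕ, n ≤ m → (m : ℝ) ≤ l * n →
      (p : ℝ) ^ (c * m) < ∑ a ∈ Finset.range (p ^ m),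
        (μ.real {x : UnitAddCircle | dig (p ^ m) x = a}) ^ s := by
  intro hcon
  have hp0 : (0 : ℝ) < p := by positivity
  have h1s : 0 < 1 - s := by nlinarith
  obtain ⟨t, ht1, ht2⟩ : ∃ t : ℝ, (l + c) / (1 - s) < t ∧ t < (1 / 2 - c) / s := by
    apply exists_between
    rw [div_lt_div_iff₀ h1s hs]
    nlinarith
  rw [div_lt_iff₀ h1s] at ht1
  rw [lt_div_iff₀ hs] at ht2
  refine covering2 hp hq hirr hμp hμq (a := c + t * s) (b := t * (1 - s) - c) (l := l)
    (by linarith) hl (by linarith) ?_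
  filter_upwards [hcon] with n hn'
  push Not at hn'
  obtain ⟨m, hnm, hml, hn⟩ := hn'
  refine ⟨m, hnm, hml, ?_⟩
  set τ : ℝ := (p : ℝ) ^ (-(t * m)) with hτ
  have hτ0 : 0 < τ := by positivity
  obtain ⟨S, hS1, hS2⟩ := heavy (D := p ^ m) (by positivity) hs (by linarith) hτ0 hn
  refine ⟨S, ?_, hS2.trans (ENNReal.ofReal_le_ofReal (le_of_eq ?_))⟩
  · have h2 : (p : ℝ) ^ ((c + t * s) * m) = (p : ℝ) ^ (c * m) / τ ^ s := by
      rw [hτ, ← Real.rpow_mul hp0.le, ← Real.rpow_sub hp0]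
      congr 1
      ring
    rw [h2, le_div_iff₀ (by positivity)]
    exact hS1
  · rw [hτ, ← Real.rpow_mul hp0.le, ← Real.rpow_add hp0]
    congr 1
    ring

end Pool.Agent.H.MP_96e181_an.rs
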